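import Pool.Agent.Y129.Stmts

namespace Pool.Agent.Y129.TaskAllV

open Pool.Agent.Y129

theorem main (h : TaskSBasic) : Pool.Agent.Y129.TaskAllV := by
  classical
  intro n P F hF
  obtain ⟨hmono, hper, hL, -⟩ := h n P
  have hs0 : P.s 0 = 0 := P.s_zero
  have hsn : P.s (n : ℤ) = P.L := rfl
  have hs2n : P.s ((2 * n : ℕ) : ℤ) = 2 * P.L := by
    have h1 := hper (n : ℤ)
    have h2 : ((2 * n : ℕ) : ℤ) = (n : ℤ) + (n : ℤ) := by push_cast; ring
    rw [h2, h1, hsn]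
    ring
  have key : ∀ x : ℝ, ∃ m : ℕ, (P.isV x → 0 ≤ x → P.s (m : ℤ) = x) ∧
      (P.isV x → 0 ≤ x → x < P.L → m < n) ∧ (P.isV x → 0 ≤ x → x < 2 * P.L → m < 2 * n) := by
    intro x
    by_cases hx : P.isV x ∧ 0 ≤ x
    · obtain ⟨⟨k, hk⟩, h0⟩ := hx
      have hk0 : 0 ≤ k := by
        rw [← hk, ← hs0] at h0
        exact hmono.le_iff_le.1 h0
      obtain ⟨m, rfl⟩ := Int.eq_ofNat_of_zero_le hk0
      refine ⟨m, fun _ _ => hk, fun _ _ h1 => ?_, fun _ _ h1 => ?_⟩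
      · rw [← hk, ← hsn] at h1
        exact_mod_cast hmono.lt_iff_lt.1 h1
      · rw [← hk, ← hs2n] at h1
        exact_mod_cast hmono.lt_iff_lt.1 h1
    · exact ⟨0, fun h1 h2 => (hx ⟨h1, h2⟩).elim, fun h1 h2 => (hx ⟨h1, h2⟩).elim,
        fun h1 h2 => (hx ⟨h1, h2⟩).elim⟩
  choose idx hidx hidx1 hidx2 using key
  have hb0 : ∀ G ∈ F, 0 ≤ G.b := fun G hG => ((hF G hG).1.1.trans G.hab.le)
  have hc0 : ∀ G ∈ F, 0 ≤ G.c := fun G hG => ((hb0 G hG).trans G.hbc.le)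
  have hc2 : ∀ G ∈ F, G.c < 2 * P.L := fun G hG => by
    have h1 := (hF G hG).1.2.1
    have h2 := G.hca
    linarith
  have hb2 : ∀ G ∈ F, G.b < 2 * P.L := fun G hG => G.hbc.trans (hc2 G hG)
  calc F.card ≤ (Finset.range n ×ˢ (Finset.range (2 * n) ×ˢ Finset.range (2 * n))).card := by
        refine Finset.card_le_card_of_injOn (fun G => (idx G.a, idx G.b, idx G.c)) ?_ ?_
        · intro G hG
          have hG' : G ∈ F := hG
          obtain ⟨⟨h1, h2, h3, h4⟩, h5⟩ := hF G hG'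
          simp only [Finset.coe_product, Set.mem_prod, Finset.mem_coe, Finset.mem_range]
          exact ⟨hidx1 _ h3 h1 h2, hidx2 _ h4 (hb0 G hG') (hb2 G hG'),
            hidx2 _ h5 (hc0 G hG') (hc2 G hG')⟩
        · intro G hG G' hG' he
          have hG1 : G ∈ F := hG
          have hG2 : G' ∈ F := hG'
          obtain ⟨⟨h1, h2, h3, h4⟩, h5⟩ := hF G hG1
          obtain ⟨⟨k1, k2, k3, k4⟩, k5⟩ := hF G' hG2
          simp only [Prod.mk.injEq] at he
          obtain ⟨e1, e2, e3⟩ := he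
          apply Gluing.ext
          · rw [← hidx _ h3 h1, e1, hidx _ k3 k1]
          · rw [← hidx _ h4 (hb0 G hG1), e2, hidx _ k4 (hb0 G' hG2)]
          · rw [← hidx _ h5 (hc0 G hG1), e3, hidx _ k5 (hc0 G' hG2)]
    _ = 4 * n ^ 3 := by
        rw [Finset.card_product, Finset.card_product, Finset.card_range, Finset.card_range]
        ring

end Pool.Agent.Y129.TaskAllV
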