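import Pool.Agent.Y129.Stmts

set_option autoImplicit false

namespace Pool.Agent.Y129.TaskAng

theorem main (hS : Pool.Agent.Y129.TaskSBasic) : Pool.Agent.Y129.TaskAng := by
  intro n P
  obtain ⟨hmono, hper, hL, hloc⟩ := hS n P
  have hinj : Function.Injective P.s := hmono.injective
  have hper' : ∀ k : ℤ, P.s (k - n) + P.L = P.s k := by
    intro k
    rw [← hper (k - n), sub_add_cancel]
  have hper1 : ∀ k : ℤ, P.s (k + n + 1) = P.s (k + 1) + P.L := by
    intro k
    rw [← hper (k + 1)]
    congr 1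
    ring
  have hper1' : ∀ k : ℤ, P.s (k - n + 1) + P.L = P.s (k + 1) := by
    intro k
    rw [← hper (k - n + 1)]
    congr 1
    ring
  have h1 : ∀ k, P.ang (P.s k) = P.α k := by
    intro k
    have hex : ∃ j, P.s j = P.s k := ⟨k, rfl⟩
    unfold Poly.ang
    rw [dif_pos hex]
    congr 1
    exact hinj hex.choose_spec
  have h2 : ∀ x, ¬ P.isV x → P.ang x = Real.pi := by
    intro x hx
    unfold Poly.ang
    exact dif_neg hx
  have h5 : ∀ x, P.isV (x + P.L) ↔ P.isV x := by
    intro x
    constructor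
    · rintro ⟨k, hk⟩
      exact ⟨k - n, by have := hper' k; linarith⟩
    · rintro ⟨k, hk⟩
      exact ⟨k + n, by rw [hper, hk]⟩
  refine ⟨h1, h2, ?_, ?_, h5, ?_, ?_⟩
  · intro x
    by_cases hx : P.isV x
    · obtain ⟨k, rfl⟩ := hx
      rw [h1]
      exact P.α_mem k
    · rw [h2 x hx]
      constructor <;> linarith [Real.pi_pos]
  · intro x
    by_cases hx : P.isV x
    · obtain ⟨k, rfl⟩ := hx
      rw [← hper, h1, h1, P.α_per]
    · rw [h2 x hx, h2 _ (fun h => hx ((h5 x).1 h))]
  · intro x
    ext z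
    constructor
    · rintro ⟨j, hj, hs⟩
      refine ⟨j - n, ?_, by have := hper' j; linarith⟩
      push_cast
      simp [hj]
    · rintro ⟨j, hj, hs⟩
      refine ⟨j + n, ?_, by rw [hper, hs]⟩
      push_cast
      simp [hj]
  · intro x
    ext z
    constructor
    · rintro ⟨j, hj, hs, hs'⟩
      refine ⟨j - n, ?_, by have := hper' j; linarith, by have := hper1' j; linarith⟩
      push_cast
      simp [hj]
    · rintro ⟨j, hj, hs, hs'⟩
      refine ⟨j + n, ?_, by rw [hper]; linarith, by rw [hper1]; linarith⟩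
      push_cast
      simp [hj]

end Pool.Agent.Y129.TaskAng
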