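import Pool.Agent.Y129.TaskArmRight

namespace Pool.Agent.Y129.TaskArmLeft

open Set Pool.Agent.Y129.TaskArmRight

theorem main (hR : TaskRange) : Pool.Agent.Y129.TaskArmLeft := by
  intro n P J J' c c' d hb hb' hJ hs hss
  have le : ∀ z, SameSign c c' z → (c ≤ z ↔ c' ≤ z) := fun z h => by
    rw [le_iff_lt_or_eq, le_iff_lt_or_eq, h.1, h.2]
  have ge : ∀ z, SameSign c c' z → (z ≤ c ↔ z ≤ c') := fun z h => by
    rw [← not_lt, ← not_lt, h.1]
  let val : ℝ → Ix → ℝ := fun c q => match q with
    | Ix.zero => 0
    | Ix.half => (d - c) / 2
    | Ix.left j => P.s j - c
    | Ix.right k => d - P.s k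
  let valid : ℝ → Ix → Prop := fun c q => match q with
    | Ix.zero => True
    | Ix.half => True
    | Ix.left j => c ≤ P.s j ∧ P.s j + P.s j - d ≤ c
    | Ix.right k => P.s k ≤ d ∧ c ≤ P.s k + P.s k - d
  have hvalid : ∀ q, valid c q ↔ valid c' q := by
    intro q
    cases q with
    | zero => exact Iff.rfl
    | half => exact Iff.rfl
    | left j => exact and_congr (le _ (hs j)) (ge _ (hss j j))
    | right k => exact and_congr Iff.rfl (le _ (hss k k))
  have hnodes : ∀ c, c < d → ∀ t, t ∈ P.nodes c d ↔ ∃ q, valid c q ∧ val c q = t := by
    intro c hc t
    constructor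
    · rintro ⟨h0, h1, h2 | h2 | ⟨j, h2⟩ | ⟨k, h2⟩⟩
      · exact ⟨Ix.zero, trivial, h2.symm⟩
      · exact ⟨Ix.half, trivial, h2.symm⟩
      · refine ⟨Ix.left j, ⟨by linarith, by linarith⟩, ?_⟩
        show P.s j - c = t
        linarith
      · refine ⟨Ix.right k, ⟨by linarith, by linarith⟩, ?_⟩
        show d - P.s k = t
        linarith
    · rintro ⟨q, hq, rfl⟩
      cases q with
      | zero => exact ⟨le_refl _, by linarith, Or.inl rfl⟩
      | half => exact ⟨show 0 ≤ (d - c) / 2 by linarith, le_refl _, Or.inr (Or.inl rfl)⟩
      | left j =>
        obtain ⟨q1, q2⟩ := hq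
        refine ⟨show 0 ≤ P.s j - c by linarith, show P.s j - c ≤ (d - c) / 2 by linarith,
          Or.inr (Or.inr (Or.inl ⟨j, show P.s j = c + (P.s j - c) by ring⟩))⟩
      | right k =>
        obtain ⟨q1, q2⟩ := hq
        refine ⟨show 0 ≤ d - P.s k by linarith, show d - P.s k ≤ (d - c) / 2 by linarith,
          Or.inr (Or.inr (Or.inr ⟨k, show P.s k = d - (d - P.s k) by ring⟩))⟩
  have hord : ∀ q r, valid c q → valid c r → (val c q ≤ val c r ↔ val c' q ≤ val c' r) := by
    intro q r hq hr
    cases q with
    | zero =>
      cases r with
      | zero => exact Iff.rfl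
      | half =>
        show (0 : ℝ) ≤ (d - c) / 2 ↔ 0 ≤ (d - c') / 2
        constructor <;> intro _ <;> linarith
      | left j =>
        show 0 ≤ P.s j - c ↔ 0 ≤ P.s j - c'
        rw [sub_nonneg, sub_nonneg]
        exact le _ (hs j)
      | right k => exact Iff.rfl
    | half =>
      cases r with
      | zero =>
        show (d - c) / 2 ≤ 0 ↔ (d - c') / 2 ≤ 0
        constructor <;> intro _ <;> linarith
      | half => exact ⟨fun _ => le_refl _, fun _ => le_refl _⟩
      | left j =>
        show (d - c) / 2 ≤ P.s j - c ↔ (d - c') / 2 ≤ P.s j - c'
        have := le _ (hss j j)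
        constructor
        · intro h
          have := this.1 (by linarith)
          linarith
        · intro h
          have := this.2 (by linarith)
          linarith
      | right k =>
        show (d - c) / 2 ≤ d - P.s k ↔ (d - c') / 2 ≤ d - P.s k
        have := ge _ (hss k k)
        constructor
        · intro h
          have := this.1 (by linarith)
          linarith
        · intro h
          have := this.2 (by linarith)
          linarith
    | left j =>
      cases r with
      | zero =>
        show P.s j - c ≤ 0 ↔ P.s j - c' ≤ 0
        rw [sub_nonpos, sub_nonpos]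
        exact ge _ (hs j)
      | half =>
        show P.s j - c ≤ (d - c) / 2 ↔ P.s j - c' ≤ (d - c') / 2
        have := ge _ (hss j j)
        constructor
        · intro h
          have := this.1 (by linarith)
          linarith
        · intro h
          have := this.2 (by linarith)
          linarith
      | left j' =>
        show P.s j - c ≤ P.s j' - c ↔ P.s j - c' ≤ P.s j' - c'
        constructor <;> intro _ <;> linarith
      | right k =>
        show P.s j - c ≤ d - P.s k ↔ P.s j - c' ≤ d - P.s k
        have := ge _ (hss j k)
        constructor
        · intro h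
          have := this.1 (by linarith)
          linarith
        · intro h
          have := this.2 (by linarith)
          linarith
    | right k =>
      cases r with
      | zero => exact Iff.rfl
      | half =>
        show d - P.s k ≤ (d - c) / 2 ↔ d - P.s k ≤ (d - c') / 2
        have := le _ (hss k k)
        constructor
        · intro h
          have := this.1 (by linarith)
          linarith
        · intro h
          have := this.2 (by linarith)
          linarith
      | left j =>
        show d - P.s k ≤ P.s j - c ↔ d - P.s k ≤ P.s j - c'
        have := le _ (hss j k)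
        constructor
        · intro h
          have := this.1 (by linarith)
          linarith
        · intro h
          have := this.2 (by linarith)
          linarith
      | right k' => exact Iff.rfl
  refine build hR P J J' c d c' d (val c) (val c') (valid c) hord (hnodes c hb) ?_ ?_
  · intro t
    rw [hnodes c' hb']
    simp only [hvalid]
  · intro q hq
    have hz : val c q = 0 ↔ val c' q = 0 := by
      have z1 : val c q ≤ 0 ↔ val c' q ≤ 0 := hord q Ix.zero hq trivial
      have z2 : 0 ≤ val c q ↔ 0 ≤ val c' q := hord Ix.zero q trivial hq
      rw [le_antisymm_iff, le_antisymm_iff, z1, z2]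
    unfold Poly.armLab
    by_cases h0 : val c q = 0
    · rw [if_pos h0, if_pos (hz.1 h0), hJ]
    · rw [if_neg h0, if_neg (fun h => h0 (hz.2 h))]
      cases q with
      | zero => exact absurd rfl h0
      | half =>
        show P.label {c + (d - c) / 2, d - (d - c) / 2} =
          P.label {c' + (d - c') / 2, d - (d - c') / 2}
        have hk : ∀ k, SameSign (c + (d - c) / 2) (c' + (d - c') / 2) (P.s k) := fun k =>
          ss_of (hss k k) (by constructor <;> intro _ <;> linarith)
            (by constructor <;> intro _ <;> linarith) (by constructor <;> intro _ <;> linarith)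
            (by constructor <;> intro _ <;> linarith)
        have e1 : d - (d - c) / 2 = c + (d - c) / 2 := by ring
        have e2 : d - (d - c') / 2 = c' + (d - c') / 2 := by ring
        rw [e1, e2]
        exact label_congr P _ _ _ _ hk hk
      | left j =>
        show P.label {c + (P.s j - c), d - (P.s j - c)} =
          P.label {c' + (P.s j - c'), d - (P.s j - c')}
        have e1 : c + (P.s j - c) = P.s j := by ring
        have e2 : c' + (P.s j - c') = P.s j := by ring
        rw [e1, e2]
        apply label_congr P _ _ _ _ (fun k => ss_refl _ _)
        exact fun k => ss_of (hss j k) (by constructor <;> intro _ <;> linarith)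
            (by constructor <;> intro _ <;> linarith) (by constructor <;> intro _ <;> linarith)
            (by constructor <;> intro _ <;> linarith)
      | right k =>
        show P.label {c + (d - P.s k), d - (d - P.s k)} =
          P.label {c' + (d - P.s k), d - (d - P.s k)}
        apply label_congr P _ _ _ _ _ (fun k => ss_refl _ _)
        exact fun j => ss_of (hss k j) (by constructor <;> intro _ <;> linarith)
            (by constructor <;> intro _ <;> linarith) (by constructor <;> intro _ <;> linarith)
            (by constructor <;> intro _ <;> linarith)

end Pool.Agent.Y129.TaskArmLeft
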