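import Pool.Agent.Y129.Stmts

namespace Pool.Agent.Y129.TaskArmRight

open Set

inductive Ix : Type
  | zero : Ix
  | half : Ix
  | left (j : ℤ) : Ix
  | right (k : ℤ) : Ix

theorem build (hR : TaskRange) {n : ℕ} (P : Poly n) (J J' : Set ℝ) (a b a' b' : ℝ)
    (val val' : Ix → ℝ) (valid : Ix → Prop)
    (h1 : ∀ q r, valid q → valid r → (val q ≤ val r ↔ val' q ≤ val' r))
    (r1 : ∀ t, t ∈ P.nodes a b ↔ ∃ q, valid q ∧ val q = t)
    (r2 : ∀ t, t ∈ P.nodes a' b' ↔ ∃ q, valid q ∧ val' q = t)
    (lab : ∀ q, valid q → P.armLab J a b (val q) = P.armLab J' a' b' (val' q)) :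
    P.ArmIso J a b J' a' b' := by
  obtain ⟨φ, hφ⟩ := hR {q : Ix // valid q} (fun q => val q.1) (fun q => val' q.1)
    (fun q r => h1 q.1 r.1 q.2 r.2)
  have e1 : Set.range (fun q : {q : Ix // valid q} => val q.1) = P.nodes a b := by
    ext t
    rw [r1]
    constructor
    · rintro ⟨q, rfl⟩; exact ⟨q.1, q.2, rfl⟩
    · rintro ⟨q, hq, rfl⟩; exact ⟨⟨q, hq⟩, rfl⟩
  have e2 : Set.range (fun q : {q : Ix // valid q} => val' q.1) = P.nodes a' b' := by
    ext t
    rw [r2]
    constructor
    · rintro ⟨q, rfl⟩; exact ⟨q.1, q.2, rfl⟩
    · rintro ⟨q, hq, rfl⟩; exact ⟨⟨q, hq⟩, rfl⟩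
  refine ⟨(OrderIso.setCongr _ _ e1.symm).trans (φ.trans (OrderIso.setCongr _ _ e2)), ?_⟩
  intro t
  obtain ⟨q, hq, hqt⟩ := (r1 t.1).1 t.2
  have e3 : (OrderIso.setCongr _ _ e1.symm t) = ⟨val q, Set.mem_range_self (⟨q, hq⟩ : {q : Ix // valid q})⟩ := by
    apply Subtype.ext
    exact hqt.symm
  have e4 : (((OrderIso.setCongr _ _ e1.symm).trans (φ.trans (OrderIso.setCongr _ _ e2))) t : ℝ) = val' q := by
    rw [OrderIso.trans_apply, OrderIso.trans_apply, e3]
    exact hφ ⟨q, hq⟩
  rw [e4, ← hqt]
  exact lab q hq

theorem pt_congr {n : ℕ} (P : Poly n) (x y : ℝ) (h : ∀ k, SameSign x y (P.s k)) :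
    P.vset x = P.vset y ∧ P.eset x = P.eset y := by
  have h1 : ∀ k, (P.s k = x ↔ P.s k = y) := fun k => by
    rw [eq_comm, (h k).2, eq_comm]
  have h2 : ∀ k, (x < P.s k ↔ y < P.s k) := fun k => (h k).1
  have h3 : ∀ k, (P.s k < x ↔ P.s k < y) := fun k => by
    have a1 := h1 k
    have a2 := h2 k
    constructor
    · intro h
      rcases lt_trichotomy (P.s k) y with h' | h' | h'
      · exact h'
      · exact absurd (a1.2 h') (ne_of_lt h)
      · exact absurd (a2.2 h') (not_lt.2 h.le)
    · intro h
      rcases lt_trichotomy (P.s k) x with h' | h' | h'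
      · exact h'
      · exact absurd (a1.1 h') (ne_of_lt h)
      · exact absurd (a2.1 h') (not_lt.2 h.le)
  constructor
  · ext k
    simp only [Poly.vset, Set.mem_ofPred_eq, h1]
  · ext k
    simp only [Poly.eset, Set.mem_ofPred_eq, h2, h3]

theorem label_pair {n : ℕ} (P : Poly n) (x y : ℝ) :
    P.label {x, y} = (P.vset x ∪ P.vset y, P.eset x ∪ P.eset y) := by
  simp [Poly.label]

theorem label_congr {n : ℕ} (P : Poly n) (x y x' y' : ℝ) (h : ∀ k, SameSign x x' (P.s k))
    (h' : ∀ k, SameSign y y' (P.s k)) : P.label {x, y} = P.label {x', y'} := by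
  rw [label_pair, label_pair, (pt_congr P x x' h).1, (pt_congr P x x' h).2,
    (pt_congr P y y' h').1, (pt_congr P y y' h').2]

theorem ss_of {c c' z x x' w : ℝ} (h : SameSign c c' z) (h1 : x < w ↔ c < z) (h2 : x = w ↔ c = z)
    (h3 : x' < w ↔ c' < z) (h4 : x' = w ↔ c' = z) : SameSign x x' w :=
  ⟨by rw [h1, h3, h.1], by rw [h2, h4, h.2]⟩

theorem ss_refl (x w : ℝ) : SameSign x x w := ⟨Iff.rfl, Iff.rfl⟩

theorem main (hR : TaskRange) : Pool.Agent.Y129.TaskArmRight := by
  intro n P J J' b c c' hb hb' hJ hs hss
  have le : ∀ z, SameSign c c' z → (c ≤ z ↔ c' ≤ z) := fun z h => by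
    rw [le_iff_lt_or_eq, le_iff_lt_or_eq, h.1, h.2]
  have ge : ∀ z, SameSign c c' z → (z ≤ c ↔ z ≤ c') := fun z h => by
    rw [← not_lt, ← not_lt, h.1]
  let val : ℝ → Ix → ℝ := fun c q => match q with
    | Ix.zero => 0
    | Ix.half => (c - b) / 2
    | Ix.left j => P.s j - b
    | Ix.right k => c - P.s k
  let valid : ℝ → Ix → Prop := fun c q => match q with
    | Ix.zero => True
    | Ix.half => True
    | Ix.left j => b ≤ P.s j ∧ P.s j + P.s j - b ≤ c
    | Ix.right k => P.s k ≤ c ∧ c ≤ P.s k + P.s k - b
  have hvalid : ∀ q, valid c q ↔ valid c' q := by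
    intro q
    cases q with
    | zero => exact Iff.rfl
    | half => exact Iff.rfl
    | left j => exact and_congr Iff.rfl (ge _ (hss j j))
    | right k => exact and_congr (ge _ (hs k)) (le _ (hss k k))
  have hnodes : ∀ c, b < c → ∀ t, t ∈ P.nodes b c ↔ ∃ q, valid c q ∧ val c q = t := by
    intro c hc t
    constructor
    · rintro ⟨h0, h1, h2 | h2 | ⟨j, h2⟩ | ⟨k, h2⟩⟩
      · exact ⟨Ix.zero, trivial, h2.symm⟩
      · exact ⟨Ix.half, trivial, h2.symm⟩
      · refine ⟨Ix.left j, ⟨by linarith, by linarith⟩, ?_⟩
        show P.s j - b = t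
        linarith
      · refine ⟨Ix.right k, ⟨by linarith, by linarith⟩, ?_⟩
        show c - P.s k = t
        linarith
    · rintro ⟨q, hq, rfl⟩
      cases q with
      | zero => exact ⟨le_refl _, by linarith, Or.inl rfl⟩
      | half => exact ⟨show 0 ≤ (c - b) / 2 by linarith, le_refl _, Or.inr (Or.inl rfl)⟩
      | left j =>
        obtain ⟨q1, q2⟩ := hq
        refine ⟨show 0 ≤ P.s j - b by linarith, show P.s j - b ≤ (c - b) / 2 by linarith,
          Or.inr (Or.inr (Or.inl ⟨j, show P.s j = b + (P.s j - b) by ring⟩))⟩
      | right k =>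
        obtain ⟨q1, q2⟩ := hq
        refine ⟨show 0 ≤ c - P.s k by linarith, show c - P.s k ≤ (c - b) / 2 by linarith,
          Or.inr (Or.inr (Or.inr ⟨k, show P.s k = c - (c - P.s k) by ring⟩))⟩
  have hord : ∀ q r, valid c q → valid c r → (val c q ≤ val c r ↔ val c' q ≤ val c' r) := by
    intro q r hq hr
    cases q with
    | zero =>
      cases r with
      | zero => exact Iff.rfl
      | half =>
        show (0 : ℝ) ≤ (c - b) / 2 ↔ 0 ≤ (c' - b) / 2
        constructor <;> intro _ <;> linarith
      | left j => exact Iff.rfl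
      | right k =>
        show 0 ≤ c - P.s k ↔ 0 ≤ c' - P.s k
        rw [sub_nonneg, sub_nonneg]
        exact ge _ (hs k)
    | half =>
      cases r with
      | zero =>
        show (c - b) / 2 ≤ 0 ↔ (c' - b) / 2 ≤ 0
        constructor <;> intro _ <;> linarith
      | half => exact ⟨fun _ => le_refl _, fun _ => le_refl _⟩
      | left j =>
        show (c - b) / 2 ≤ P.s j - b ↔ (c' - b) / 2 ≤ P.s j - b
        have := le _ (hss j j)
        constructor
        · intro h
          have := this.1 (by linarith)
          linarith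
        · intro h
          have := this.2 (by linarith)
          linarith
      | right k =>
        show (c - b) / 2 ≤ c - P.s k ↔ (c' - b) / 2 ≤ c' - P.s k
        have := ge _ (hss k k)
        constructor
        · intro h
          have := this.1 (by linarith)
          linarith
        · intro h
          have := this.2 (by linarith)
          linarith
    | left j =>
      cases r with
      | zero => exact Iff.rfl
      | half =>
        show P.s j - b ≤ (c - b) / 2 ↔ P.s j - b ≤ (c' - b) / 2
        have := ge _ (hss j j)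
        constructor
        · intro h
          have := this.1 (by linarith)
          linarith
        · intro h
          have := this.2 (by linarith)
          linarith
      | left j' => exact Iff.rfl
      | right k =>
        show P.s j - b ≤ c - P.s k ↔ P.s j - b ≤ c' - P.s k
        have := ge _ (hss j k)
        constructor
        · intro h
          have := this.1 (by linarith)
          linarith
        · intro h
          have := this.2 (by linarith)
          linarith
    | right k =>
      cases r with
      | zero =>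
        show c - P.s k ≤ 0 ↔ c' - P.s k ≤ 0
        rw [sub_nonpos, sub_nonpos]
        exact le _ (hs k)
      | half =>
        show c - P.s k ≤ (c - b) / 2 ↔ c' - P.s k ≤ (c' - b) / 2
        have := le _ (hss k k)
        constructor
        · intro h
          have := this.1 (by linarith)
          linarith
        · intro h
          have := this.2 (by linarith)
          linarith
      | left j =>
        show c - P.s k ≤ P.s j - b ↔ c' - P.s k ≤ P.s j - b
        have := le _ (hss j k)
        constructor
        · intro h
          have := this.1 (by linarith)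
          linarith
        · intro h
          have := this.2 (by linarith)
          linarith
      | right k' =>
        show c - P.s k ≤ c - P.s k' ↔ c' - P.s k ≤ c' - P.s k'
        constructor <;> intro _ <;> linarith
  refine build hR P J J' b c b c' (val c) (val c') (valid c) hord (hnodes c hb) ?_ ?_
  · intro t
    rw [hnodes c' hb']
    simp only [hvalid]
  · intro q hq
    have hz : val c q = 0 ↔ val c' q = 0 := by
      have z1 : val c q ≤ 0 ↔ val c' q ≤ 0 := hord q Ix.zero hq trivial
      have z2 : 0 ≤ val c q ↔ 0 ≤ val c' q := hord Ix.zero q trivial hq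
      rw [le_antisymm_iff, le_antisymm_iff, z1, z2]
    unfold Poly.armLab
    by_cases h0 : val c q = 0
    · rw [if_pos h0, if_pos (hz.1 h0), hJ]
    · rw [if_neg h0, if_neg (fun h => h0 (hz.2 h))]
      cases q with
      | zero => exact absurd rfl h0
      | half =>
        show P.label {b + (c - b) / 2, c - (c - b) / 2} =
          P.label {b + (c' - b) / 2, c' - (c' - b) / 2}
        have hk : ∀ k, SameSign (b + (c - b) / 2) (b + (c' - b) / 2) (P.s k) := fun k =>
          ss_of (hss k k) (by constructor <;> intro _ <;> linarith)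
            (by constructor <;> intro _ <;> linarith) (by constructor <;> intro _ <;> linarith)
            (by constructor <;> intro _ <;> linarith)
        have e1 : c - (c - b) / 2 = b + (c - b) / 2 := by ring
        have e2 : c' - (c' - b) / 2 = b + (c' - b) / 2 := by ring
        rw [e1, e2]
        exact label_congr P _ _ _ _ hk hk
      | left j =>
        show P.label {b + (P.s j - b), c - (P.s j - b)} =
          P.label {b + (P.s j - b), c' - (P.s j - b)}
        apply label_congr P _ _ _ _ (fun k => ss_refl _ _)
        exact fun k => ss_of (hss j k) (by constructor <;> intro _ <;> linarith)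
            (by constructor <;> intro _ <;> linarith) (by constructor <;> intro _ <;> linarith)
            (by constructor <;> intro _ <;> linarith)
      | right k =>
        show P.label {b + (c - P.s k), c - (c - P.s k)} =
          P.label {b + (c' - P.s k), c' - (c' - P.s k)}
        have e1 : c - (c - P.s k) = P.s k := by ring
        have e2 : c' - (c' - P.s k) = P.s k := by ring
        rw [e1, e2]
        apply label_congr P _ _ _ _ _ (fun k => ss_refl _ _)
        exact fun j => ss_of (hss k j) (by constructor <;> intro _ <;> linarith)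
            (by constructor <;> intro _ <;> linarith) (by constructor <;> intro _ <;> linarith)
            (by constructor <;> intro _ <;> linarith)

end Pool.Agent.Y129.TaskArmRight
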