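import Pool.Agent.Y129.Stmts

namespace Pool.Agent.Y129.TaskClose

open Finset

theorem exp_arctan (a t : ℝ) : ((a * √(1 + t ^ 2) : ℝ) : ℂ) *
    Complex.exp ((Real.arctan t : ℝ) * Complex.I) = a + a * t * Complex.I := by
  have h : (0 : ℝ) < 1 + t ^ 2 := by positivity
  have hs : √(1 + t ^ 2) ≠ 0 := (Real.sqrt_pos.2 h).ne'
  rw [Complex.exp_mul_I, ← Complex.ofReal_cos, ← Complex.ofReal_sin, Real.cos_arctan,
    Real.sin_arctan]
  have h1 : a * √(1 + t ^ 2) * (1 / √(1 + t ^ 2)) = a := by field_simp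
  have h2 : a * √(1 + t ^ 2) * (t / √(1 + t ^ 2)) = a * t := by field_simp
  rw [mul_add, ← mul_assoc, ← Complex.ofReal_mul, ← Complex.ofReal_mul, h1, h2]
  push_cast
  ring

/-- the sum of the first `N` edges -/
noncomputable def W (N : ℕ) : ℂ := ∑ k ∈ range N, (((1 / 2 : ℝ) ^ (k + 1) : ℝ) : ℂ) *
  Complex.exp (((Real.pi * (k + 1) / (N + 1) : ℝ) : ℂ) * Complex.I)

theorem geom (N : ℕ) : ∑ k ∈ range N, (1 / 2 : ℝ) ^ (k + 1) ≤ 1 := by
  have : ∀ N : ℕ, ∑ k ∈ range N, (1 / 2 : ℝ) ^ (k + 1) = 1 - (1 / 2) ^ N := by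
    intro N
    induction N with
    | zero => simp
    | succ N ih => rw [sum_range_succ, ih, pow_succ]; ring
  rw [this]
  have : (0 : ℝ) ≤ (1 / 2) ^ N := by positivity
  linarith

theorem W_norm (N : ℕ) : ‖W N‖ ≤ 1 := by
  refine (norm_sum_le _ _).trans (le_trans (le_of_eq ?_) (geom N))
  refine sum_congr rfl fun k _ => ?_
  rw [norm_mul, Complex.norm_exp_ofReal_mul_I, mul_one, Complex.norm_real, Real.norm_eq_abs,
    abs_of_nonneg (by positivity)]

theorem W_im (N : ℕ) (hN : 3 ≤ N) : 0 < (W N).im := by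
  unfold W
  rw [Complex.im_sum]
  apply sum_pos
  · intro k hk
    have hk' : k < N := mem_range.1 hk
    rw [Complex.im_ofReal_mul, Complex.exp_ofReal_mul_I_im]
    apply mul_pos (by positivity)
    have hN1 : (0 : ℝ) < (N : ℝ) + 1 := by positivity
    have hkN : (k : ℝ) + 1 < (N : ℝ) + 1 := by
      have : (k : ℝ) < N := by exact_mod_cast hk'
      linarith
    apply Real.sin_pos_of_pos_of_lt_pi
    · positivity
    · rw [div_lt_iff₀ hN1]
      exact mul_lt_mul_of_pos_left hkN Real.pi_pos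
  · exact ⟨0, mem_range.2 (by omega)⟩

theorem main : Pool.Agent.Y129.TaskClose := by
  intro N hN
  have hNr : (3 : ℝ) ≤ N := by exact_mod_cast hN
  have hx : |(W N).re| ≤ 1 := (Complex.abs_re_le_norm _).trans (W_norm N)
  have hh1 : (W N).im ≤ 1 := (Complex.im_le_norm _).trans (W_norm N)
  have hh0 : 0 < (W N).im := W_im N hN
  obtain ⟨hxl, hxu⟩ := abs_le.1 hx
  set x : ℝ := (W N).re with hxd
  set h : ℝ := (W N).im with hhd
  set a1 : ℝ := (N : ℝ) + 2 + x with ha1
  set a2 : ℝ := (N : ℝ) + 2 with ha2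
  have ha1l : (N : ℝ) + 1 ≤ a1 := by rw [ha1]; linarith
  have ha1p : 0 < a1 := by linarith
  have ha2p : 0 < a2 := by linarith
  set t1 : ℝ := h / 2 / a1 with ht1
  set t2 : ℝ := h / 2 / a2 with ht2
  have ht1p : 0 < t1 := by positivity
  have ht2p : 0 < t2 := by positivity
  have hat1 : a1 * t1 = h / 2 := by rw [ht1]; field_simp
  have hat2 : a2 * t2 = h / 2 := by rw [ht2]; field_simp
  have hb1 : t1 ≤ 1 / 2 / (N + 1) := by
    rw [ht1]
    apply div_le_div₀ (by norm_num) (by linarith) (by linarith) ha1l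
  have hb2 : t2 ≤ 1 / 2 / (N + 1) := by
    rw [ht2]
    apply div_le_div₀ (by norm_num) (by linarith) (by linarith) (by rw [ha2]; linarith)
  have hb3 : (1 : ℝ) / 2 / (N + 1) < 1 := by
    rw [div_lt_one (by linarith)]
    linarith
  have harc : ∀ t : ℝ, 0 < t → Real.arctan t ≤ t := by
    intro t ht
    have h1 := Real.arctan_lt_pi_div_two t
    have h2 : 0 < Real.arctan t := by rwa [Real.arctan_pos]
    have h3 := Real.le_tan h2.le h1
    rwa [Real.tan_arctan] at h3
  have hA1p : 0 < Real.arctan t1 := by rwa [Real.arctan_pos]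
  have hA2p : 0 < Real.arctan t2 := by rwa [Real.arctan_pos]
  have hA1 : Real.arctan t1 < Real.pi / 4 := by
    rw [← Real.arctan_one]
    exact Real.arctan_strictMono (by linarith)
  have hA2 : Real.arctan t2 < Real.pi / 4 := by
    rw [← Real.arctan_one]
    exact Real.arctan_strictMono (by linarith)
  have hs1 : 1 ≤ √(1 + t1 ^ 2) := by
    rw [Real.one_le_sqrt]; nlinarith
  have hs2 : 1 ≤ √(1 + t2 ^ 2) := by
    rw [Real.one_le_sqrt]; nlinarith
  refine ⟨fun k => if k < N then Real.pi * (k + 1) / (N + 1) else if k = N then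
      Real.pi + Real.arctan t1 else 2 * Real.pi - Real.arctan t2,
    fun k => if k < N then (1 / 2) ^ (k + 1) else if k = N then a1 * √(1 + t1 ^ 2) else
      a2 * √(1 + t2 ^ 2), ?_, ?_, ?_, ?_, ?_, ?_, ?_, ?_, ?_⟩
  · intro k hk
    simp [hk]
  · simp only [lt_irrefl, if_false, if_true]
    nlinarith
  · simp only [not_lt_of_ge (Nat.le_succ N), if_false, Nat.succ_ne_self]
    positivity
  · simp only [lt_irrefl, if_false, if_true]
    linarith
  · simp only [lt_irrefl, if_false, if_true]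
    linarith
  · simp only [not_lt_of_ge (Nat.le_succ N), if_false, Nat.succ_ne_self]
    linarith
  · simp only [not_lt_of_ge (Nat.le_succ N), if_false, Nat.succ_ne_self]
    linarith
  · simp only [not_lt_of_ge (Nat.le_succ N), if_false, Nat.succ_ne_self, lt_irrefl, if_true]
    have h1 := harc t1 ht1p
    have h2 := harc t2 ht2p
    have h3 : (1 : ℝ) / 2 / (N + 1) + 1 / 2 / (N + 1) ≤ Real.pi / (N + 1) := by
      rw [← add_div]
      apply div_le_div_of_nonneg_right _ (by linarith)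
      linarith [Real.pi_gt_three]
    linarith
  · rw [sum_range_succ, sum_range_succ]
    simp only [not_lt_of_ge (Nat.le_succ N), if_false, Nat.succ_ne_self, lt_irrefl, if_true]
    have hW : ∑ k ∈ range N, (((if k < N then (1 / 2) ^ (k + 1) else if k = N then
        a1 * √(1 + t1 ^ 2) else a2 * √(1 + t2 ^ 2) : ℝ)) : ℂ) * Complex.exp
        (((if k < N then Real.pi * (k + 1) / (N + 1) else if k = N then
      Real.pi + Real.arctan t1 else 2 * Real.pi - Real.arctan t2 : ℝ) : ℂ) * Complex.I) = W N := by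
      unfold W
      refine sum_congr rfl fun k hk => ?_
      rw [if_pos (mem_range.1 hk), if_pos (mem_range.1 hk)]
    rw [hW]
    have e1 : Complex.exp (((Real.pi + Real.arctan t1 : ℝ) : ℂ) * Complex.I) =
        -Complex.exp ((Real.arctan t1 : ℝ) * Complex.I) := by
      rw [Complex.ofReal_add, add_mul, Complex.exp_add, Complex.exp_pi_mul_I]
      ring
    have e2 : Complex.exp (((2 * Real.pi - Real.arctan t2 : ℝ) : ℂ) * Complex.I) =
        Complex.exp ((Real.arctan (-t2) : ℝ) * Complex.I) := by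
      rw [Real.arctan_neg, sub_eq_add_neg, Complex.ofReal_add, add_mul, Complex.exp_add]
      push_cast
      rw [Complex.exp_two_pi_mul_I]
      ring
    have e3 := exp_arctan a1 t1
    have e4 := exp_arctan a2 (-t2)
    rw [neg_sq] at e4
    rw [e1, e2, mul_neg, e3, e4]
    have e5 : (a1 : ℂ) * t1 = ((h / 2 : ℝ) : ℂ) := by rw [← hat1]; push_cast; ring
    have e6 : (a2 : ℂ) * ((-t2 : ℝ) : ℂ) = -((h / 2 : ℝ) : ℂ) := by
      rw [← hat2]; push_cast; ring
    rw [e5, e6]
    have e7 : W N = (x : ℂ) + h * Complex.I := (Complex.re_add_im _).symm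
    rw [e7, ha1, ha2]
    push_cast
    ring

end Pool.Agent.Y129.TaskClose
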