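import Pool.Agent.Y129.Stmts

set_option autoImplicit false

namespace Pool.Agent.Y129.TaskCrit

open Pool.Agent.Y129
open scoped Classical

theorem shift {n : ℕ} (P : Poly n) (hs : ∀ k, P.s (k + n) = P.s k + P.L) (m : ℤ) :
    ∀ k, P.s (k + m * n) = P.s k + m * P.L := by
  induction m using Int.induction_on with
  | zero => intro k; simp
  | succ i ih =>
    intro k
    have e : k + ((i : ℤ) + 1) * n = (k + i * n) + n := by ring
    rw [e, hs, ih]
    push_cast
    ring
  | pred i ih =>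
    intro k
    have e : k + (-(i : ℤ)) * n = (k + (-(i : ℤ) - 1) * n) + n := by ring
    have h := ih k
    rw [e, hs] at h
    push_cast at h ⊢
    linarith

theorem congr_shift {n : ℕ} (P : Poly n) (hs : ∀ k, P.s (k + n) = P.s k + P.L) (j j' : ℤ)
    (h : (j : ZMod n) = (j' : ZMod n)) : ∃ m : ℤ, P.s j' = P.s j + m * P.L := by
  rw [ZMod.intCast_eq_intCast_iff_dvd_sub] at h
  obtain ⟨m, hm⟩ := h
  refine ⟨m, ?_⟩
  rw [← shift P hs m j]
  congr 1
  linarith [mul_comm (n : ℤ) m]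

theorem eq_of_shift {L x y z z' : ℝ} (hL : 0 < L) (hy : y ≤ x + L) (h1 : x < z) (h2 : z < y)
    (h1' : x < z') (h2' : z' < y) (m : ℤ) (hm : z' = z + m * L) : z = z' := by
  have hm0 : m = 0 := by
    by_contra hne
    rcases lt_or_gt_of_ne hne with h | h
    · have : (m : ℝ) ≤ -1 := by exact_mod_cast (by omega : m ≤ -1)
      nlinarith
    · have : (1 : ℝ) ≤ m := by exact_mod_cast (by omega : 1 ≤ m)
      nlinarith
  rw [hm0] at hm
  rw [hm]
  simp

theorem main (hSB : Pool.Agent.Y129.TaskSBasic) : Pool.Agent.Y129.TaskCrit := by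
  intro n P x y u hy
  obtain ⟨-, hs, hL, -⟩ := hSB n P
  haveI : NeZero n := ⟨by have := P.three; omega⟩
  constructor
  · set A := {z | x < z ∧ z < y ∧ ∃ j k, z = P.s j + P.s k - u} with hA
    have hex : ∀ z ∈ A, ∃ q : ZMod n × ZMod n, ∃ j k : ℤ, (j : ZMod n) = q.1 ∧ (k : ZMod n) = q.2 ∧
        z = P.s j + P.s k - u := by
      rintro z ⟨-, -, j, k, hz⟩
      exact ⟨((j : ZMod n), (k : ZMod n)), j, k, rfl, rfl, hz⟩
    choose! f hf using hex
    have hinj : Set.InjOn f A := by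
      intro z hz z' hz' hff
      obtain ⟨j, k, hj, hk, hzz⟩ := hf z hz
      obtain ⟨j', k', hj', hk', hzz'⟩ := hf z' hz'
      obtain ⟨m1, hm1⟩ := congr_shift P hs j j' (by rw [hj, hj', hff])
      obtain ⟨m2, hm2⟩ := congr_shift P hs k k' (by rw [hk, hk', hff])
      refine eq_of_shift hL hy hz.1 hz.2.1 hz'.1 hz'.2.1 (m1 + m2) ?_
      rw [hzz, hzz', hm1, hm2]
      push_cast
      ring
    have hfin : A.Finite := Set.Finite.of_injOn (t := Set.univ) (fun _ _ => Set.mem_univ _) hinj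
      (Set.toFinite _)
    refine ⟨hfin, ?_⟩
    have := Set.ncard_le_ncard_of_injOn f (t := Set.univ) (fun _ _ => Set.mem_univ _) hinj
      (Set.toFinite _)
    rw [Set.ncard_univ, Nat.card_prod, Nat.card_zmod] at this
    rw [sq]
    exact this
  · set B := {z | x < z ∧ z < y ∧ ∃ j, z = P.s j} with hB
    have hex : ∀ z ∈ B, ∃ q : ZMod n, ∃ j : ℤ, (j : ZMod n) = q ∧ z = P.s j := by
      rintro z ⟨-, -, j, hz⟩
      exact ⟨(j : ZMod n), j, rfl, hz⟩
    choose! f hf using hex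
    have hinj : Set.InjOn f B := by
      intro z hz z' hz' hff
      obtain ⟨j, hj, hzz⟩ := hf z hz
      obtain ⟨j', hj', hzz'⟩ := hf z' hz'
      obtain ⟨m1, hm1⟩ := congr_shift P hs j j' (by rw [hj, hj', hff])
      refine eq_of_shift hL hy hz.1 hz.2.1 hz'.1 hz'.2.1 m1 ?_
      rw [hzz, hzz', hm1]
    have hfin : B.Finite := Set.Finite.of_injOn (t := Set.univ) (fun _ _ => Set.mem_univ _) hinj
      (Set.toFinite _)
    refine ⟨hfin, ?_⟩
    have := Set.ncard_le_ncard_of_injOn f (t := Set.univ) (fun _ _ => Set.mem_univ _) hinj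
      (Set.toFinite _)
    rw [Set.ncard_univ, Nat.card_zmod] at this
    exact this

end Pool.Agent.Y129.TaskCrit
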