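import Pool.Agent.Y129.Stmts

/-! Task Equiv of the blueprint of helper129 for MP_d9fc2a_co (helper283). -/

namespace Pool.Agent.Y129.TaskEquiv

open Set

theorem main : Pool.Agent.Y129.TaskEquiv := by
  intro n P
  refine ⟨?_, ?_, ?_⟩
  · intro G
    exact ⟨1, fun i => ⟨OrderIso.refl _, fun t => rfl⟩⟩
  · rintro G G' ⟨σ, hσ⟩
    refine ⟨σ⁻¹, fun i => ?_⟩
    have h0 := hσ (σ⁻¹ i)
    rw [show σ (σ⁻¹ i) = i from σ.apply_symm_apply i] at h0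
    obtain ⟨φ, hφ⟩ := h0
    refine ⟨φ.symm, fun t => ?_⟩
    have h := hφ (φ.symm t)
    rw [OrderIso.apply_symm_apply] at h
    exact h.symm
  · rintro G G' G'' ⟨σ, hσ⟩ ⟨τ, hτ⟩
    refine ⟨τ * σ, fun i => ?_⟩
    obtain ⟨φ, hφ⟩ := hσ i
    obtain ⟨ψ, hψ⟩ := hτ (σ i)
    refine ⟨φ.trans ψ, fun t => ?_⟩
    rw [hφ t, hψ (φ t)]
    rfl

end Pool.Agent.Y129.TaskEquiv
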