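import Pool.Agent.Y129.Stmts

/-! Blueprint of helper129 for MP_d9fc2a_co: TaskLeft. -/

namespace Pool.Agent.Y129.TaskLeft

open Pool.Agent.Y129

theorem main : Pool.Agent.Y129.TaskLeft := by
  intro n V D ℓ h i k hik hkn
  have hmono : StrictMono D := strictMono_int_of_lt_succ fun j => (h.D_lt j).1
  let f : ℤ → ℝ := fun j => (Complex.exp (-(D i) * Complex.I) * (V j - V i)).im
  have hstep : ∀ j, f (j + 1) = f j + ℓ j * Real.sin (D j - D i) := by
    intro j
    have h1 := h.step j
    have h2 : V (j + 1) = V j + ℓ j * Complex.exp (D j * Complex.I) := by rw [← h1]; ring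
    have e : Complex.exp (((D j - D i : ℝ) : ℂ) * Complex.I) =
        Complex.exp (-(D i) * Complex.I) * Complex.exp (D j * Complex.I) := by
      rw [← Complex.exp_add]; congr 1; push_cast; ring
    have h3 : Complex.exp (-(D i) * Complex.I) * (V (j + 1) - V i) =
        Complex.exp (-(D i) * Complex.I) * (V j - V i) +
          (ℓ j : ℂ) * Complex.exp (((D j - D i : ℝ) : ℂ) * Complex.I) := by
      rw [e, h2]; ring
    show (Complex.exp (-(D i) * Complex.I) * (V (j + 1) - V i)).im = _
    rw [h3, Complex.add_im, Complex.im_ofReal_mul, Complex.exp_ofReal_mul_I_im]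
  have hi : f i = 0 := by simp [f]
  have hi1 : f (i + 1) = 0 := by rw [hstep, hi]; simp
  have hin : f (i + n) = 0 := by
    show (Complex.exp (-(D i) * Complex.I) * (V (i + n) - V i)).im = 0
    rw [h.V_per]; simp
  have hDn : D (i + n) = D i + 2 * Real.pi := h.D_per i
  show 0 < f k
  by_cases hc : D (k - 1) - D i ≤ Real.pi
  · have key : ∀ m : ℕ, 2 ≤ m → i + (m : ℤ) ≤ k → 0 < f (i + m) := by
      intro m hm
      induction m, hm using Nat.le_induction with
      | base =>
        intro _
        have e : i + ((2 : ℕ) : ℤ) = (i + 1) + 1 := by push_cast; ring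
        rw [e, hstep, hi1, zero_add]
        obtain ⟨a1, a2⟩ := h.D_lt i
        exact mul_pos (h.ℓ_pos _) (Real.sin_pos_of_pos_of_lt_pi (by linarith) (by linarith))
      | succ m hm ih =>
        intro hmk
        push_cast at hmk
        have e : i + ((m + 1 : ℕ) : ℤ) = (i + m) + 1 := by push_cast; ring
        rw [e, hstep]
        have h1 := ih (by omega)
        have h2 : D i ≤ D (i + m) := hmono.monotone (by omega)
        have h3 : D (i + m) ≤ D (k - 1) := hmono.monotone (by omega)
        have h4 : 0 ≤ Real.sin (D (i + m) - D i) :=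
          Real.sin_nonneg_of_nonneg_of_le_pi (by linarith) (by linarith)
        have h5 := mul_nonneg (h.ℓ_pos (i + m)).le h4
        linarith
    have := key (k - i).toNat (by omega) (by omega)
    rwa [show i + ((k - i).toNat : ℤ) = k by omega] at this
  · push Not at hc
    have neg : ∀ j, k ≤ j → j < i + n → ℓ j * Real.sin (D j - D i) < 0 := by
      intro j hj1 hj2
      have h1 : D (k - 1) ≤ D j := hmono.monotone (by omega)
      have h2 : D j < D (i + n) := hmono hj2
      apply mul_neg_of_pos_of_neg (h.ℓ_pos _)
      have e : Real.sin (D j - D i) = - Real.sin (D j - D i - Real.pi) := by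
        rw [Real.sin_sub_pi]; ring
      rw [e]
      have := Real.sin_pos_of_pos_of_lt_pi (x := D j - D i - Real.pi) (by linarith) (by linarith)
      linarith
    have key : ∀ m : ℕ, 1 ≤ m → (m : ℤ) ≤ i + n - k → 0 < f (i + n - m) := by
      intro m hm
      induction m, hm using Nat.le_induction with
      | base =>
        intro h1
        push_cast at h1
        have h2 := hstep (i + n - ((1 : ℕ) : ℤ))
        have e : i + (n : ℤ) - ((1 : ℕ) : ℤ) + 1 = i + n := by push_cast; ring
        rw [e, hin] at h2
        have h3 := neg (i + n - ((1 : ℕ) : ℤ)) (by push_cast; omega) (by push_cast; omega)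
        linarith
      | succ m hm ih =>
        intro h1
        push_cast at h1
        have h0 := ih (by omega)
        have h2 := hstep (i + n - ((m + 1 : ℕ) : ℤ))
        have e : i + (n : ℤ) - ((m + 1 : ℕ) : ℤ) + 1 = i + n - m := by push_cast; ring
        rw [e] at h2
        have h3 := neg (i + n - ((m + 1 : ℕ) : ℤ)) (by push_cast; omega) (by push_cast; omega)
        linarith
    have := key (i + n - k).toNat (by omega) (by omega)
    rwa [show i + n - ((i + n - k).toNat : ℤ) = k by omega] at this

end Pool.Agent.Y129.TaskLeft
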