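import Pool.Agent.Y129.Stmts

set_option autoImplicit false

namespace Pool.Agent.Y129.TaskLowDist

open Set Pool.Agent.Y129

noncomputable section

private theorem zero_mem {n : ℕ} {P : Poly n} {a b : ℝ} (h : a ≤ b) : (0 : ℝ) ∈ P.nodes a b :=
  ⟨le_refl _, by linarith, Or.inl rfl⟩

private theorem zero_map {n : ℕ} {P : Poly n} {a b a' b' : ℝ} (h : a ≤ b) (h' : a' ≤ b')
    (φ : P.nodes a b ≃o P.nodes a' b') : ((φ ⟨0, zero_mem h⟩ : P.nodes a' b') : ℝ) = 0 := by
  apply le_antisymm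
  · have h1 : (⟨0, zero_mem h⟩ : P.nodes a b) ≤ φ.symm ⟨0, zero_mem h'⟩ :=
      (φ.symm ⟨0, zero_mem h'⟩).2.1
    have h2 := φ.monotone h1
    rw [φ.apply_symm_apply] at h2
    exact h2
  · exact (φ ⟨0, zero_mem h⟩).2.1

private theorem label_J {n : ℕ} {P : Poly n} {J J' : Set ℝ} {a b a' b' : ℝ} (h : a ≤ b)
    (h' : a' ≤ b') (H : P.ArmIso J a b J' a' b') : P.label J = P.label J' := by
  obtain ⟨φ, hφ⟩ := H
  have h1 := hφ ⟨0, zero_mem h⟩
  rw [zero_map h h' φ] at h1
  simpa [Poly.armLab] using h1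

private theorem label_node {n : ℕ} {P : Poly n} {J J' : Set ℝ} {a b a' b' : ℝ} (h : a ≤ b)
    (h' : a' ≤ b') (H : P.ArmIso J a b J' a' b') (t : ℝ) (ht : t ∈ P.nodes a b) (ht0 : t ≠ 0) :
    ∃ t', 0 < t' ∧ t' ≤ (b' - a') / 2 ∧
      P.label {a + t, b - t} = P.label {a' + t', b' - t'} := by
  obtain ⟨φ, hφ⟩ := H
  have hne : ((φ ⟨t, ht⟩ : P.nodes a' b') : ℝ) ≠ 0 := by
    intro h0
    have h1 := zero_map h h' φ
    have h2 : φ ⟨t, ht⟩ = φ ⟨0, zero_mem h⟩ := Subtype.ext (h0.trans h1.symm)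
    have h3 := φ.injective h2
    exact ht0 (congrArg Subtype.val h3)
  refine ⟨φ ⟨t, ht⟩, lt_of_le_of_ne (φ ⟨t, ht⟩).2.1 (Ne.symm hne), (φ ⟨t, ht⟩).2.2.1, ?_⟩
  have h1 := hφ ⟨t, ht⟩
  simpa [Poly.armLab, ht0, hne] using h1

private theorem cast_inj' (N : ℕ) (j u : ℤ) (hj : 0 ≤ j) (hj' : j < N + 2) (hu : 0 ≤ u)
    (hu' : u < N + 2) (h : (j : ZMod (N + 2)) = (u : ZMod (N + 2))) : j = u := by
  have h1 := (ZMod.intCast_eq_intCast_iff' j u (N + 2)).1 h
  have h2 : ((N + 2 : ℕ) : ℤ) = (N : ℤ) + 2 := by push_cast; ring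
  rw [h2, Int.emod_eq_of_lt hj hj', Int.emod_eq_of_lt hu hu'] at h1
  exact h1

private theorem cbound {N : ℕ} {P : Poly (N + 2)} (hS : Sharp N P) (i u w : ℕ) (hi : 1 ≤ i)
    (hiu : i < u) (huw : u < w) (hw : w ≤ N) :
    P.s N < P.s u + P.s w - P.s i ∧ P.s u + P.s w - P.s i < P.s (N + 1) := by
  have h1 : P.s i = 1 - (1 / 2) ^ i := hS.pos i (by omega)
  have h2 : P.s u = 1 - (1 / 2) ^ u := hS.pos u (by omega)
  have h3 : P.s w = 1 - (1 / 2) ^ w := hS.pos w (by omega)
  have h4 : P.s N = 1 - (1 / 2) ^ N := hS.pos N (le_refl _)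
  have h5 := hS.long
  have e1 : ((1 : ℝ) / 2) ^ u ≤ (1 / 2) ^ (i + 1) :=
    pow_le_pow_of_le_one (by norm_num) (by norm_num) (by omega)
  have e2 : ((1 : ℝ) / 2) ^ w ≤ (1 / 2) ^ (i + 2) :=
    pow_le_pow_of_le_one (by norm_num) (by norm_num) (by omega)
  have e3 : (0 : ℝ) < (1 / 2) ^ i := by positivity
  have e4 : (0 : ℝ) < (1 / 2) ^ N := by positivity
  have e5 : ((1 : ℝ) / 2) ^ i ≤ 1 := pow_le_one₀ (by norm_num) (by norm_num)
  have e6 : ((1 : ℝ) / 2) ^ N ≤ 1 := pow_le_one₀ (by norm_num) (by norm_num)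
  have e7 : (0 : ℝ) < (1 / 2) ^ u := by positivity
  have e8 : (0 : ℝ) < (1 / 2) ^ w := by positivity
  rw [pow_succ] at e1
  rw [pow_add] at e2
  constructor
  · rw [h1, h2, h3, h4]
    nlinarith
  · rw [h1, h2, h3]
    linarith

theorem main (h1 : TaskSBasic) (_h2 : TaskAng) : Pool.Agent.Y129.TaskLowDist := by
  intro N P hS i u w i' u' w' hi hiu huw hw hi' hiu' huw' hw' G G' ha hb hc ha' hb' hc' hT
  obtain ⟨hs, hper, -, -⟩ := h1 (N + 2) P
  obtain ⟨σ, hσ⟩ := hT
  have H := hσ 1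
  have hL : G'.a + P.L = P.s (N + 1) := by
    rw [ha', ← hper]
    congr 1
    push_cast
    ring
  obtain ⟨hcl, hcu⟩ := cbound hS i u w hi hiu huw hw
  obtain ⟨hcl', hcu'⟩ := cbound hS i' u' w' hi' hiu' huw' hw'
  have hlo : ∀ j, G'.lo j ≤ G'.hi j := by
    intro j
    fin_cases j
    · exact G'.hab.le
    · exact G'.hbc.le
    · exact G'.hca.le
  have hlo1 : G.lo 1 ≤ G.hi 1 := G.hbc.le
  -- the junction
  have hJ := label_J hlo1 (hlo (σ 1)) H
  have hii : i = i' := by
    have hm : ((i : ℤ) : ZMod (N + 2)) ∈ (P.label G.J).1 := by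
      simp only [Poly.label, mem_iUnion]
      exact ⟨G.b, Or.inr (Or.inl rfl), i, rfl, hb.symm⟩
    rw [hJ] at hm
    simp only [Poly.label, mem_iUnion] at hm
    obtain ⟨x, hx, j, hj, hjx⟩ := hm
    rcases hx with rfl | rfl | hx
    · rw [ha'] at hjx
      have h3 : j = -1 := hs.injective hjx
      subst h3
      have h4 : (((N : ℤ) + 1 : ℤ) : ZMod (N + 2)) = ((i : ℤ) : ZMod (N + 2)) := by
        rw [← hj, ZMod.intCast_eq_intCast_iff_dvd_sub]
        refine ⟨-1, ?_⟩
        push_cast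
        ring
      have h5 := cast_inj' N _ _ (by omega) (by omega) (by omega) (by omega) h4
      omega
    · rw [hb'] at hjx
      have h3 : j = i' := hs.injective hjx
      subst h3
      have h5 := cast_inj' N _ _ (by omega) (by omega) (by omega) (by omega) hj
      omega
    · rw [mem_singleton_iff] at hx
      rw [hx, hc'] at hjx
      rw [← hjx] at hcl' hcu'
      have h6 := hs.lt_iff_lt.1 hcl'
      have h7 := hs.lt_iff_lt.1 hcu'
      omega
  refine ⟨hii, ?_⟩
  subst hii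
  -- the node `{u, w}`
  have hsu : P.s i < P.s u := hs (by exact_mod_cast hiu)
  have hsw : P.s u < P.s w := hs (by exact_mod_cast huw)
  have htn : P.s u - P.s i ∈ P.nodes (G.lo 1) (G.hi 1) := by
    have e1 : G.lo 1 = P.s i := hb
    have e2 : G.hi 1 = P.s u + P.s w - P.s i := hc
    rw [e1, e2]
    refine ⟨by linarith, by linarith, Or.inr (Or.inr (Or.inl ⟨u, by ring⟩))⟩
  obtain ⟨t', ht0, ht1, hlab⟩ := label_node hlo1 (hlo (σ 1)) H _ htn (by linarith)
  have e1 : G.lo 1 = P.s i := hb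
  have e2 : G.hi 1 = P.s u + P.s w - P.s i := hc
  rw [e1, e2] at hlab
  have hmu : ((u : ℤ) : ZMod (N + 2)) ∈
      (P.label {P.s i + (P.s u - P.s i), P.s u + P.s w - P.s i - (P.s u - P.s i)}).1 := by
    simp only [Poly.label, mem_iUnion]
    exact ⟨_, Or.inl rfl, u, rfl, by ring⟩
  have hmw : ((w : ℤ) : ZMod (N + 2)) ∈
      (P.label {P.s i + (P.s u - P.s i), P.s u + P.s w - P.s i - (P.s u - P.s i)}).1 := by
    simp only [Poly.label, mem_iUnion]
    exact ⟨_, Or.inr rfl, w, rfl, by ring⟩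
  rw [hlab] at hmu hmw
  simp only [Poly.label, mem_iUnion] at hmu hmw
  obtain ⟨x, hx, j, hj, hjx⟩ := hmu
  obtain ⟨y, hy, k, hk, hky⟩ := hmw
  have hσ1 : σ 1 = 0 ∨ σ 1 = 1 ∨ σ 1 = 2 := by
    generalize σ 1 = m
    fin_cases m <;> simp
  rcases hσ1 with hm | hm | hm
  · exfalso
    rw [hm] at hx ht1
    have f1 : G'.lo 0 = P.s (-1) := ha'
    have f2 : G'.hi 0 = P.s i := hb'
    rw [f1, f2] at hx ht1
    have hx1 : P.s (-1) < x ∧ x < P.s i := by
      rcases hx with rfl | hx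
      · constructor <;> linarith
      · rw [mem_singleton_iff] at hx
        rw [hx]
        constructor <;> linarith
    rw [← hjx] at hx1
    have h6 := hs.lt_iff_lt.1 hx1.1
    have h7 := hs.lt_iff_lt.1 hx1.2
    have h8 := cast_inj' N _ _ (by omega) (by omega) (by omega) (by omega) hj
    omega
  · rw [hm] at hx hy ht1
    have f1 : G'.lo 1 = P.s i := hb'
    have f2 : G'.hi 1 = P.s u' + P.s w' - P.s i := hc'
    rw [f1, f2] at hx hy ht1
    have hx1 : P.s i < x ∧ x < P.s (N + 1) := by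
      rcases hx with rfl | hx
      · constructor <;> linarith
      · rw [mem_singleton_iff] at hx
        rw [hx]
        constructor <;> linarith
    have hy1 : P.s i < y ∧ y < P.s (N + 1) := by
      rcases hy with rfl | hy
      · constructor <;> linarith
      · rw [mem_singleton_iff] at hy
        rw [hy]
        constructor <;> linarith
    rw [← hjx] at hx1
    rw [← hky] at hy1
    have h6 := hs.lt_iff_lt.1 hx1.1
    have h7 := hs.lt_iff_lt.1 hx1.2
    have h8 := cast_inj' N _ _ (by omega) (by omega) (by omega) (by omega) hj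
    have g6 := hs.lt_iff_lt.1 hy1.1
    have g7 := hs.lt_iff_lt.1 hy1.2
    have g8 := cast_inj' N _ _ (by omega) (by omega) (by omega) (by omega) hk
    subst h8
    subst g8
    rcases hx with hx | hx <;> rcases hy with hy | hy
    · rw [hx] at hjx
      rw [hy] at hky
      linarith
    · rw [mem_singleton_iff] at hy
      rw [hx] at hjx
      rw [hy] at hky
      linarith
    · rw [mem_singleton_iff] at hx
      rw [hx] at hjx
      rw [hy] at hky
      linarith
    · rw [mem_singleton_iff] at hx hy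
      rw [hx] at hjx
      rw [hy] at hky
      linarith
  · exfalso
    rw [hm] at hx ht1
    have f1 : G'.lo 2 = P.s u' + P.s w' - P.s i := hc'
    have f2 : G'.hi 2 = P.s (N + 1) := hL
    rw [f1, f2] at hx ht1
    have hx1 : P.s N < x ∧ x < P.s (N + 1) := by
      rcases hx with rfl | hx
      · constructor <;> linarith
      · rw [mem_singleton_iff] at hx
        rw [hx]
        constructor <;> linarith
    rw [← hjx] at hx1
    have h6 := hs.lt_iff_lt.1 hx1.1
    have h7 := hs.lt_iff_lt.1 hx1.2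
    omega

end

end Pool.Agent.Y129.TaskLowDist
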