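import Pool.Agent.Y129.Stmts

set_option autoImplicit false

namespace Pool.Agent.Y129.TaskLowGlue

open Pool.Agent.Y129

theorem main (hS : TaskSBasic) (hA : TaskAng) : Pool.Agent.Y129.TaskLowGlue := by
  intro N P hP i u w hi hiu huw hwN
  obtain ⟨hmono, hper, hL, -⟩ := hS (N + 2) P
  obtain ⟨hv, hnv, -, hangper, -, -, -⟩ := hA (N + 2) P
  have hle : ∀ x, P.ang x ≤ Real.pi := by
    intro x
    by_cases h : P.isV x
    · obtain ⟨k, rfl⟩ := h
      rw [hv]
      exact (hP.convex k).le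
    · exact (hnv x h).le
  have hfold : ∀ a b, P.Fold a b := by
    intro a b x _ _ _
    have h1 := hle x
    have h2 := hle (a + b - x)
    linarith
  have h1 : P.s (-1) + P.L = P.s (N + 1) := by
    rw [← hper (-1)]
    congr 1
    push_cast
    ring
  have hα : P.α (-1) = P.α (N + 1) := by
    rw [← P.α_per (-1)]
    congr 1
    push_cast
    ring
  have hpi : P.s (i : ℤ) = 1 - (1 / 2 : ℝ) ^ i := hP.pos i (by omega)
  have hpu : P.s (u : ℤ) = 1 - (1 / 2 : ℝ) ^ u := hP.pos u (by omega)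
  have hpw : P.s (w : ℤ) = 1 - (1 / 2 : ℝ) ^ w := hP.pos w hwN
  have hpN : P.s (N : ℤ) = 1 - (1 / 2 : ℝ) ^ N := hP.pos N le_rfl
  have hlong := hP.long
  have m1 : P.s (-1) < P.s (i : ℤ) := hmono (by omega)
  have m2 : P.s (i : ℤ) < P.s (u : ℤ) := hmono (by omega)
  have m3 : P.s (u : ℤ) < P.s (w : ℤ) := hmono (by omega)
  have q1 : (1 / 2 : ℝ) ^ i ≤ 1 / 2 := by
    calc (1 / 2 : ℝ) ^ i ≤ (1 / 2 : ℝ) ^ 1 := pow_le_pow_of_le_one (by norm_num) (by norm_num) hi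
      _ = 1 / 2 := pow_one _
  have q2 : 0 < (1 / 2 : ℝ) ^ u := by positivity
  have q3 : 0 < (1 / 2 : ℝ) ^ w := by positivity
  have q4 : (1 / 2 : ℝ) ^ N ≤ 1 := pow_le_one₀ (by norm_num) (by norm_num)
  have hsharp := hP.sharp i hi (by omega)
  refine ⟨⟨P.s (-1), P.s i, P.s u + P.s w - P.s i, m1, by linarith, ?_, ?_, hfold _ _, hfold _ _,
    hfold _ _⟩, rfl, rfl, rfl⟩
  · rw [h1]
    rw [hpi, hpu, hpw]
    rw [hpN] at hlong
    linarith
  · rw [hv, hv, hα]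
    have h5 := hle (P.s u + P.s w - P.s i)
    linarith

end Pool.Agent.Y129.TaskLowGlue
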