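import Pool.Agent.Y129.Stmts

namespace Pool.Agent.Y129.TaskNoReflexArc

open Classical

theorem main (hS : TaskSlide) (hc : TaskPairsConvex) (hr : TaskPairsReflex) :
    Pool.Agent.Y129.TaskNoReflexArc := by
  intro n P F hF hD
  have h1 : ∃ S : Finset (ℝ × ℝ), S.card ≤ 16 * n ∧
      ∀ G : Gluing P, Normal G → ¬ P.isV G.c → ¬ Refl G → (G.a, G.b) ∈ S := by
    by_cases h : ∃ r, Real.pi < P.α r
    · exact hr n P h
    · push Not at h
      obtain ⟨S, hS1, hS2⟩ := hc n P h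
      exact ⟨S, hS1, fun G a b _ => hS2 G a b⟩
  obtain ⟨S, hS1, hS2⟩ := h1
  have h2 : ∀ G ∈ F, (G.a, G.b) ∈ S := fun G hG => hS2 G (hF G hG).1 (hF G hG).2.1 (hF G hG).2.2
  have h3 := Finset.card_eq_sum_card_fiberwise (f := fun G : Gluing P => (G.a, G.b)) (s := F)
    (t := S) h2
  rw [h3]
  have h4 : ∀ p ∈ S, (F.filter (fun G : Gluing P => (G.a, G.b) = p)).card ≤ 7 * n ^ 2 := by
    intro p hp
    apply hS n P p.1 p.2
    · intro G hG
      rw [Finset.mem_filter] at hG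
      rw [← hG.2]
      exact ⟨rfl, rfl⟩
    · intro G hG G' hG' h
      exact hD G (Finset.mem_filter.1 hG).1 G' (Finset.mem_filter.1 hG').1 h
  calc _ ≤ ∑ p ∈ S, 7 * n ^ 2 := Finset.sum_le_sum h4
    _ = S.card * (7 * n ^ 2) := by rw [Finset.sum_const, smul_eq_mul]
    _ ≤ (16 * n) * (7 * n ^ 2) := Nat.mul_le_mul_right _ hS1
    _ = 112 * n ^ 3 := by ring

end Pool.Agent.Y129.TaskNoReflexArc
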