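import Pool.Agent.Y129.Stmts

set_option autoImplicit false

namespace Pool.Agent.Y129.TaskNormal

open Pool.Agent.Y129

theorem main (hS : TaskSBasic) (hA : TaskAng) (hE : TaskEquiv) (hR : TaskRot)
    (hSh : Pool.Agent.Y129.TaskShift) : Pool.Agent.Y129.TaskNormal := by
  intro n P G
  obtain ⟨-, -, hL, -⟩ := hS n P
  obtain ⟨-, hnv, hpos, -, hvL, -, -⟩ := hA n P
  have hE' := hE n P
  -- shifts of vertices
  have hvm : ∀ (m : ℤ) (x : ℝ), P.isV (x + m * P.L) ↔ P.isV x := by
    intro m
    induction m using Int.induction_on with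
    | zero => intro x; simp
    | succ k ih =>
      intro x
      have e : x + ((k : ℤ) + 1 : ℤ) * P.L = (x + (k : ℤ) * P.L) + P.L := by push_cast; ring
      rw [e, hvL, ih]
    | pred k ih =>
      intro x
      have e : x + (-(k : ℤ) : ℤ) * P.L = (x + (-(k : ℤ) - 1 : ℤ) * P.L) + P.L := by push_cast; ring
      rw [← ih x, e, hvL]
  -- normalisation by a shift
  have hnorm : ∀ G₁ : Gluing P, P.isV G₁.a → P.isV G₁.b → ∃ G' : Gluing P, SameType G₁ G' ∧ Normal G' := by
    intro G₁ ha hb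
    obtain ⟨G', h1, h2, h3, h4⟩ := hSh n P G₁ (-⌊G₁.a / P.L⌋)
    refine ⟨G', h4, ?_, ?_, ?_, ?_⟩
    · rw [h1]
      have h5 := Int.floor_le (G₁.a / P.L)
      rw [le_div_iff₀ hL] at h5
      push_cast
      linarith
    · rw [h1]
      have h5 := Int.lt_floor_add_one (G₁.a / P.L)
      rw [div_lt_iff₀ hL] at h5
      push_cast
      linarith
    · rw [h1, hvm]
      exact ha
    · rw [h2, hvm]
      exact hb
  have hj := G.junction
  by_cases ha : P.isV G.a
  · by_cases hb : P.isV G.b
    · exact hnorm G ha hb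
    · have hc : P.isV G.c := by
        by_contra hc
        rw [hnv _ hb, hnv _ hc] at hj
        have := (hpos G.a).1
        linarith
      obtain ⟨G₁, h1, h2, h3, h4⟩ := hR n P G
      obtain ⟨G₂, k1, k2, k3, k4⟩ := hR n P G₁
      obtain ⟨G', l1, l2⟩ := hnorm G₂ (by rw [k1, h2]; exact hc) (by rw [k2, h3, hvL]; exact ha)
      exact ⟨G', hE'.trans h4 (hE'.trans k4 l1), l2⟩
  · have hb : P.isV G.b := by
      by_contra hb
      rw [hnv _ ha, hnv _ hb] at hj
      have := (hpos G.c).1
      linarith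
    have hc : P.isV G.c := by
      by_contra hc
      rw [hnv _ ha, hnv _ hc] at hj
      have := (hpos G.b).1
      linarith
    obtain ⟨G₁, h1, h2, h3, h4⟩ := hR n P G
    obtain ⟨G', l1, l2⟩ := hnorm G₁ (by rw [h1]; exact hb) (by rw [h2]; exact hc)
    exact ⟨G', hE'.trans h4 l1, l2⟩

end Pool.Agent.Y129.TaskNormal
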