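import Pool.Agent.Y129.Stmts

set_option autoImplicit false

/-! Proof of `TaskPairsConvex` (helper95). -/

namespace Pool.Agent.Y129.TaskPairsConvex

open Pool.Agent.Y129

theorem cnt (h3 : TaskWindow) {n : ℕ} (P : Poly n) (hc : ∀ k, P.α k ≤ Real.pi) (k : ℤ) :
    ((Finset.Ico k (k + n)).filter (fun j => P.α j ≤ Real.pi / 2)).card ≤ 4 := by
  set A := (Finset.Ico k (k + n)).filter (fun j => P.α j ≤ Real.pi / 2) with hA
  have h := h3 n P k
  have h4 : ∑ j ∈ A, (Real.pi - P.α j) ≤ ∑ j ∈ Finset.Ico k (k + n), (Real.pi - P.α j) :=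
    Finset.sum_le_sum_of_subset_of_nonneg (Finset.filter_subset _ _)
      (fun j _ _ => by have := hc j; linarith)
  have h5 : A.card • (Real.pi / 2) ≤ ∑ j ∈ A, (Real.pi - P.α j) :=
    Finset.card_nsmul_le_sum _ _ _ (fun j hj => by
      have := (Finset.mem_filter.1 hj).2
      linarith)
  rw [nsmul_eq_mul] at h5
  have hpi := Real.pi_pos
  have h6 : (A.card : ℝ) * (Real.pi / 2) ≤ 4 * (Real.pi / 2) := by linarith
  have h7 : (A.card : ℝ) ≤ 4 := le_of_mul_le_mul_right h6 (by linarith)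
  exact_mod_cast h7

theorem main (h1 : TaskSBasic) (h2 : TaskAng) (h3 : TaskWindow) :
    Pool.Agent.Y129.TaskPairsConvex := by
  intro n P hc
  classical
  obtain ⟨hmono, hper, hL, -⟩ := h1 n P
  obtain ⟨hang, hangn, -, -, -, -, -⟩ := h2 n P
  let A : Finset ℤ := (Finset.Ico (0 : ℤ) (0 + n)).filter (fun j => P.α j ≤ Real.pi / 2)
  let B : Finset ℤ := (Finset.Ico (n : ℤ) (n + n)).filter (fun j => P.α j ≤ Real.pi / 2)
  let T : Finset (ℤ × ℤ) := (A ×ˢ Finset.Ico (0 : ℤ) (2 * n)) ∪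
    (Finset.Ico (0 : ℤ) n ×ˢ (A ∪ B))
  refine ⟨T.image (fun x => (P.s x.1, P.s x.2)), ?_, ?_⟩
  · refine Finset.card_image_le.trans ?_
    have hA : A.card ≤ 4 := cnt h3 P hc 0
    have hB : B.card ≤ 4 := cnt h3 P hc n
    have hAB : (A ∪ B).card ≤ 8 := (Finset.card_union_le _ _).trans (by omega)
    refine (Finset.card_union_le _ _).trans ?_
    rw [Finset.card_product, Finset.card_product, Int.card_Ico, Int.card_Ico]
    have e1 : (2 * (n : ℤ) - 0).toNat = 2 * n := by omega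
    have e2 : ((n : ℤ) - 0).toNat = n := by omega
    rw [e1, e2]
    nlinarith
  · intro G hG hGc
    obtain ⟨ha0, haL, ⟨k, hk⟩, ⟨j, hj⟩⟩ := hG
    have hk0 : 0 ≤ k := by
      rw [← hmono.le_iff_le, P.s_zero, hk]; exact ha0
    have hkn : k < n := by
      rw [← hmono.lt_iff_lt, hk]; exact haL
    have hkj : k < j := by
      rw [← hmono.lt_iff_lt, hk, hj]; exact G.hab
    have hjn : j < k + n := by
      rw [← hmono.lt_iff_lt, hper, hk, hj]
      exact G.hbc.trans G.hca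
    have hjun := G.junction
    rw [← hk, ← hj, hang, hang, hangn _ hGc] at hjun
    rw [Finset.mem_image]
    refine ⟨(k, j), ?_, by simp [hk, hj]⟩
    rw [Finset.mem_union]
    rcases le_or_gt (P.α k) (Real.pi / 2) with h | h
    · left
      rw [Finset.mem_product]
      refine ⟨Finset.mem_filter.2 ⟨Finset.mem_Ico.2 ⟨hk0, by omega⟩, h⟩, Finset.mem_Ico.2 ⟨?_, ?_⟩⟩
      · show 0 ≤ j
        omega
      · show j < 2 * n
        omega
    · right
      have h' : P.α j ≤ Real.pi / 2 := by linarith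
      rw [Finset.mem_product]
      refine ⟨Finset.mem_Ico.2 ⟨hk0, hkn⟩, ?_⟩
      show j ∈ A ∪ B
      rw [Finset.mem_union]
      rcases lt_or_ge j n with hjn2 | hjn2
      · left
        exact Finset.mem_filter.2 ⟨Finset.mem_Ico.2 ⟨by omega, by omega⟩, h'⟩
      · right
        exact Finset.mem_filter.2 ⟨Finset.mem_Ico.2 ⟨hjn2, by omega⟩, h'⟩

end Pool.Agent.Y129.TaskPairsConvex
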