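import Pool.Agent.Y129.Stmts

/-! Blueprint of helper129 for MP_d9fc2a_co: TaskPairsReflex. -/

namespace Pool.Agent.Y129.TaskPairsReflex

open Pool.Agent.Y129

/-- the admissible gluings -/
def Adm {n : ℕ} {P : Poly n} (G : Gluing P) : Prop := Normal G ∧ ¬ P.isV G.c ∧ ¬ Refl G

theorem angs (hA : TaskAng) {n : ℕ} {P : Poly n} {G : Gluing P} (hG : Adm G) :
    P.ang G.a + P.ang G.b ≤ Real.pi ∧ P.ang G.a < Real.pi ∧ P.ang G.b < Real.pi := by
  obtain ⟨_, h2, h3, _⟩ := hA n P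
  have h4 := G.junction
  rw [h2 G.c hG.2.1] at h4
  have h5 := (h3 G.a).1
  have h6 := (h3 G.b).1
  refine ⟨by linarith, by linarith, by linarith⟩

theorem sum_mem (hS : TaskSBasic) (hA : TaskAng) {n : ℕ} {P : Poly n} {r0 : ℤ} (h0 : 0 ≤ r0)
    (h1 : r0 < n) (hr0 : Real.pi < P.α r0) {G : Gluing P} (hG : Adm G) :
    ∃ r q : ℤ, (r = r0 ∨ r = r0 + n) ∧ 0 ≤ q ∧ q < 2 * n ∧ G.a + G.b = P.s r + P.s q := by
  obtain ⟨hmono, hper, hL, _⟩ := hS n P
  obtain ⟨ang1, ang2, ang3, _⟩ := hA n P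
  obtain ⟨b1, b2, b3⟩ := angs hA hG
  obtain ⟨⟨ha0, haL, ⟨i, hi⟩, ⟨j, hj⟩⟩, hc, href⟩ := hG
  have hsn : P.s n = P.L := rfl
  have hi0 : 0 ≤ i := by
    by_contra hlt
    have := hmono (show i < 0 by omega)
    rw [P.s_zero] at this
    linarith
  have hin : i < n := by
    by_contra hlt
    have := hmono.monotone (show (n : ℤ) ≤ i by omega)
    rw [hsn] at this
    linarith
  have hjn : j < i + n := by
    by_contra hlt
    have := hmono.monotone (show i + n ≤ j by omega)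
    rw [hper] at this
    have := G.hbc
    have := G.hca
    linarith
  obtain ⟨r, hr, hir, hrn, hαr⟩ : ∃ r : ℤ, (r = r0 ∨ r = r0 + n) ∧ i ≤ r ∧ r < i + n ∧
      Real.pi < P.α r := by
    by_cases h : i ≤ r0
    · exact ⟨r0, Or.inl rfl, h, by omega, hr0⟩
    · exact ⟨r0 + n, Or.inr rfl, by omega, by omega, by rw [P.α_per]; exact hr0⟩
  have hsr : P.ang (P.s r) = P.α r := ang1 r
  have hra : G.a < P.s r := by
    have h : G.a ≤ P.s r := by rw [← hi]; exact hmono.monotone hir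
    rcases h.lt_or_eq with h | h
    · exact h
    · rw [← h] at hsr
      linarith
  have hrL : P.s r < G.a + P.L := by
    have := hmono hrn
    rw [hper, hi] at this
    exact this
  have hrb : P.s r < G.b := by
    have h : P.s r ≤ G.b := by
      by_contra hcon
      push Not at hcon
      exact href ⟨r, hcon, hrL, hαr⟩
    rcases h.lt_or_eq with h | h
    · exact h
    · rw [h] at hsr
      linarith
  by_cases hx : P.s r = G.a + G.b - P.s r
  · refine ⟨r, r, hr, ?_, ?_, by linarith⟩ <;> omega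
  · have h2 := G.fab (P.s r) hra hrb hx
    have h3 : P.isV (G.a + G.b - P.s r) := by
      by_contra hcon
      rw [ang2 _ hcon, hsr] at h2
      linarith
    obtain ⟨q, hq⟩ := h3
    have hq1 : i < q := by
      apply hmono.lt_iff_lt.mp
      rw [hi, hq]
      linarith
    have hq2 : q < j := by
      apply hmono.lt_iff_lt.mp
      rw [hj, hq]
      linarith
    exact ⟨r, q, hr, by omega, by omega, by rw [hq]; ring⟩

/-- the left ends of the arcs with a given sum -/
def A {n : ℕ} (P : Poly n) (σ : ℝ) : Set ℝ := {x | ∃ G : Gluing P, Adm G ∧ G.a = x ∧ G.a + G.b = σ}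

theorem card_le (hA : TaskAng) (hT : TaskTurn) {n : ℕ} (P : Poly n) (σ : ℝ) (T : Finset ℝ)
    (h : (T : Set ℝ) ⊆ A P σ) : T.card ≤ 2 := by
  rcases T.eq_empty_or_nonempty with rfl | hne
  · simp
  obtain ⟨G0, hG0, ha0, hs0⟩ := h (T.min'_mem hne)
  obtain ⟨b1, b2, b3⟩ := angs hA hG0
  refine hT n P G0.a G0.b hG0.1.2.2.1 hG0.1.2.2.2 G0.hab (lt_trans G0.hbc G0.hca) G0.fab
    (by linarith [Real.pi_pos]) ?_ T ?_
  · intro r h1 h2
    by_contra hcon
    push Not at hcon
    exact hG0.2.2 ⟨r, h1, h2, hcon⟩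
  · intro x hx
    obtain ⟨G, hG, ha, hs⟩ := h hx
    obtain ⟨c1, c2, c3⟩ := angs hA hG
    refine ⟨?_, ?_, ?_⟩
    · rw [ha0]; exact T.min'_le x hx
    · rw [hs0, ← hs, ← ha]; linarith [G.hab]
    · rw [hs0, ← hs, ← ha, add_sub_cancel_left]; exact c1

theorem A_finite (hA : TaskAng) (hT : TaskTurn) {n : ℕ} (P : Poly n) (σ : ℝ) :
    (A P σ).Finite := by
  by_contra hcon
  obtain ⟨T, hT1, hT2⟩ := Set.Infinite.exists_subset_card_eq hcon 3
  have := card_le hA hT P σ T hT1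
  omega

theorem main (hS : TaskSBasic) (hA : TaskAng) (hT : TaskTurn) :
    Pool.Agent.Y129.TaskPairsReflex := by
  classical
  intro n P ⟨r', hr'⟩
  have hn : (0 : ℤ) < n := by have := P.three; omega
  have hper : Function.Periodic P.α (n : ℤ) := P.α_per
  have hr0 : Real.pi < P.α (r' % n) := by
    have h1 := hper.int_mul (r' / n) (r' % n)
    have h2 : r' % (n : ℤ) + r' / (n : ℤ) * n = r' := by
      have := Int.mul_ediv_add_emod r' n
      linarith [mul_comm (r' / (n : ℤ)) (n : ℤ)]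
    rw [Int.cast_id, h2] at h1
    rw [← h1]
    exact hr'
  have hr1 := Int.emod_nonneg r' hn.ne'
  have hr2 := Int.emod_lt_of_pos r' hn
  let r0 : ℤ := r' % n
  let SG : Finset ℝ := (({r0, r0 + n} : Finset ℤ) ×ˢ Finset.Ico (0 : ℤ) (2 * n)).image
    fun p => P.s p.1 + P.s p.2
  have hSG : SG.card ≤ 4 * n := by
    refine Finset.card_image_le.trans ?_
    rw [Finset.card_product, Int.card_Ico]
    have h2 : ({r0, r0 + n} : Finset ℤ).card ≤ 2 := Finset.card_le_two
    have h3 : ((2 * (n : ℤ)) - 0).toNat = 2 * n := by omega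
    rw [h3]
    nlinarith
  let B : ℝ → Finset ℝ := fun σ => (A_finite hA hT P σ).toFinset
  have hB : ∀ σ, (B σ).card ≤ 2 := fun σ => card_le hA hT P σ _ (by simp [B])
  refine ⟨SG.biUnion fun σ => (B σ).image fun a => (a, σ - a), ?_, ?_⟩
  · refine Finset.card_biUnion_le.trans ?_
    have h1 : ∑ σ ∈ SG, ((B σ).image fun a => (a, σ - a)).card ≤ ∑ _σ ∈ SG, 2 :=
      Finset.sum_le_sum fun σ _ => Finset.card_image_le.trans (hB σ)
    rw [Finset.sum_const, smul_eq_mul] at h1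
    omega
  · intro G hN hc hR
    have hG : Adm G := ⟨hN, hc, hR⟩
    obtain ⟨r, q, hr, hq1, hq2, hs⟩ := sum_mem hS hA hr1 hr2 hr0 hG
    refine Finset.mem_biUnion.mpr ⟨G.a + G.b, ?_, ?_⟩
    · refine Finset.mem_image.mpr ⟨(r, q), ?_, hs.symm⟩
      refine Finset.mem_product.mpr ⟨?_, Finset.mem_Ico.mpr ⟨hq1, hq2⟩⟩
      rw [Finset.mem_insert, Finset.mem_singleton]
      exact hr
    · refine Finset.mem_image.mpr ⟨G.a, ?_, by rw [add_sub_cancel_left]⟩
      exact (A_finite hA hT P _).mem_toFinset.mpr ⟨G, hG, rfl, rfl⟩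

end Pool.Agent.Y129.TaskPairsReflex
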