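import Pool.Agent.Y129.Stmts

/-! Blueprint of helper129 for MP_d9fc2a_co: TaskPeriodic. -/

namespace Pool.Agent.Y129.TaskPeriodic

open Pool.Agent.Y129

theorem main : Pool.Agent.Y129.TaskPeriodic := by
  intro n D ℓ hn hℓ hD h1 h2 hsum
  have hn0 : (0 : ℤ) < n := by omega
  let R : ℤ → ℕ := fun k => (k % (n : ℤ)).toNat
  let Q : ℤ → ℤ := fun k => k / (n : ℤ)
  let E : ℕ → ℂ := fun j => (ℓ j : ℂ) * Complex.exp (D j * Complex.I)
  have hval : ∀ (q : ℤ) (r : ℕ), r < n → R (q * n + r) = r ∧ Q (q * n + r) = q := by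
    intro q r hr
    have h := (Int.ediv_emod_unique hn0 (a := q * n + r) (q := q) (r := (r : ℤ))).mpr
      ⟨by ring, by positivity, by exact_mod_cast hr⟩
    refine ⟨?_, h.1⟩
    show ((q * n + r) % (n : ℤ)).toNat = r
    rw [h.2]
    simp
  have hdec : ∀ k : ℤ, ∃ (q : ℤ) (r : ℕ), r < n ∧ k = q * n + r := by
    intro k
    have a1 := Int.emod_nonneg k hn0.ne'
    have a2 := Int.emod_lt_of_pos k hn0
    have a3 := Int.mul_ediv_add_emod k n
    refine ⟨k / n, (k % n).toNat, by omega, ?_⟩
    rw [Int.toNat_of_nonneg a1]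
    linarith [mul_comm (k / (n : ℤ)) (n : ℤ)]
  have hexp : ∀ (q : ℤ) (x : ℝ),
      Complex.exp (((x + 2 * Real.pi * q : ℝ) : ℂ) * Complex.I) = Complex.exp (x * Complex.I) := by
    intro q x
    have : ((x + 2 * Real.pi * q : ℝ) : ℂ) * Complex.I =
        (x : ℂ) * Complex.I + q * (2 * Real.pi * Complex.I) := by
      push_cast
      ring
    rw [this, Complex.exp_add, Complex.exp_int_mul_two_pi_mul_I, mul_one]
  refine ⟨fun k => ∑ j ∈ Finset.range (R k), E j, fun k => D (R k) + 2 * Real.pi * (Q k : ℝ),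
    fun k => ℓ (R k), ⟨hn, ?_, ?_, ?_, ?_, ?_, ?_⟩, ?_, ?_⟩
  · intro k
    obtain ⟨q, r, hr, rfl⟩ := hdec k
    have e : q * (n : ℤ) + r + n = (q + 1) * n + r := by ring
    simp only [e, (hval q r hr).1, (hval (q + 1) r hr).1]
  · intro k
    obtain ⟨q, r, hr, rfl⟩ := hdec k
    have e : q * (n : ℤ) + r + n = (q + 1) * n + r := by ring
    simp only [e, (hval q r hr).1, (hval (q + 1) r hr).1, (hval q r hr).2, (hval (q + 1) r hr).2]
    push_cast
    ring
  · intro k
    obtain ⟨q, r, hr, rfl⟩ := hdec k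
    have e : q * (n : ℤ) + r + n = (q + 1) * n + r := by ring
    simp only [e, (hval q r hr).1, (hval (q + 1) r hr).1]
  · intro k
    obtain ⟨q, r, hr, rfl⟩ := hdec k
    simp only [(hval q r hr).1]
    exact hℓ r hr
  · intro k
    obtain ⟨q, r, hr, rfl⟩ := hdec k
    by_cases hr1 : r + 1 < n
    · have e : q * (n : ℤ) + r + 1 = q * n + ((r + 1 : ℕ) : ℤ) := by push_cast; ring
      simp only [e, (hval q r hr).1, (hval q r hr).2, (hval q (r + 1) hr1).1,
        (hval q (r + 1) hr1).2]
      obtain ⟨b1, b2⟩ := hD r hr1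
      constructor <;> linarith
    · have e : q * (n : ℤ) + r + 1 = (q + 1) * n + ((0 : ℕ) : ℤ) := by
        have : (n : ℤ) = r + 1 := by omega
        rw [this]; push_cast; ring
      have hr2 : r = n - 1 := by omega
      simp only [e, (hval q r hr).1, (hval q r hr).2, (hval (q + 1) 0 (by omega)).1,
        (hval (q + 1) 0 (by omega)).2]
      rw [hr2]
      push_cast
      constructor <;> linarith
  · intro k
    obtain ⟨q, r, hr, rfl⟩ := hdec k
    by_cases hr1 : r + 1 < n
    · have e : q * (n : ℤ) + r + 1 = q * n + ((r + 1 : ℕ) : ℤ) := by push_cast; ring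
      simp only [e, (hval q r hr).1, (hval q r hr).2, (hval q (r + 1) hr1).1]
      rw [Finset.sum_range_succ, add_sub_cancel_left, hexp]
    · have e : q * (n : ℤ) + r + 1 = (q + 1) * n + ((0 : ℕ) : ℤ) := by
        have : (n : ℤ) = r + 1 := by omega
        rw [this]; push_cast; ring
      simp only [e, (hval q r hr).1, (hval q r hr).2, (hval (q + 1) 0 (by omega)).1]
      rw [hexp]
      have hn1 : n = r + 1 := by omega
      rw [hn1, Finset.sum_range_succ] at hsum
      simp only [Finset.range_zero, Finset.sum_empty, zero_sub]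
      show -(∑ j ∈ Finset.range r, E j) = E r
      have : ∑ j ∈ Finset.range r, E j + E r = 0 := hsum
      linear_combination -this
  · intro k hk
    have e : (k : ℤ) = 0 * n + k := by ring
    show D (R k) + 2 * Real.pi * (Q k : ℝ) = D k
    rw [e, (hval 0 k hk).1, (hval 0 k hk).2]
    simp
  · intro k hk
    have e : (k : ℤ) = 0 * n + k := by ring
    show ℓ (R k) = ℓ k
    rw [e, (hval 0 k hk).1]

end Pool.Agent.Y129.TaskPeriodic
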