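import Pool.Agent.Y129.Stmts

set_option autoImplicit false

namespace Pool.Agent.Y129.TaskPoly

open Pool.Agent.Y129

/-- positions from the edge lengths -/
noncomputable def pos (ℓ : ℤ → ℝ) (k : ℤ) : ℝ :=
  ∑ i ∈ Finset.range k.toNat, ℓ (i : ℤ) - ∑ i ∈ Finset.range (-k).toNat, ℓ (-(i : ℤ) - 1)

theorem pos_zero (ℓ : ℤ → ℝ) : pos ℓ 0 = 0 := by simp [pos]

theorem pos_succ (ℓ : ℤ → ℝ) (k : ℤ) : pos ℓ (k + 1) - pos ℓ k = ℓ k := by
  unfold pos
  rcases le_or_gt 0 k with hk | hk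
  · have h1 : (k + 1).toNat = k.toNat + 1 := by omega
    have h2 : (-(k + 1)).toNat = 0 := by omega
    have h3 : (-k).toNat = 0 := by omega
    have h4 : ((k.toNat : ℕ) : ℤ) = k := by omega
    rw [h1, h2, h3, Finset.sum_range_succ, h4]
    simp
  · have h1 : (k + 1).toNat = 0 := by omega
    have h2 : k.toNat = 0 := by omega
    have h3 : (-k).toNat = (-(k + 1)).toNat + 1 := by omega
    have h4 : -(((-(k + 1)).toNat : ℕ) : ℤ) - 1 = k := by omega
    rw [h1, h2, h3, Finset.sum_range_succ, h4]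
    simp

theorem norm_step {n : ℕ} {V : ℤ → ℂ} {D ℓ : ℤ → ℝ} (h : Conv n V D ℓ) (k : ℤ) :
    ‖V (k + 1) - V k‖ = ℓ k := by
  rw [h.step k, norm_mul, Complex.norm_exp_ofReal_mul_I, mul_one, Complex.norm_real,
    Real.norm_eq_abs, abs_of_pos (h.ℓ_pos k)]

theorem step' {n : ℕ} {V : ℤ → ℂ} {D ℓ : ℤ → ℝ} (h : Conv n V D ℓ) (k : ℤ) :
    V (k - 1) - V k = -((ℓ (k - 1) : ℂ) * Complex.exp (D (k - 1) * Complex.I)) := by
  have := h.step (k - 1)
  rw [sub_add_cancel] at this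
  rw [← this]
  ring

theorem norm_step' {n : ℕ} {V : ℤ → ℂ} {D ℓ : ℤ → ℝ} (h : Conv n V D ℓ) (k : ℤ) :
    ‖V (k - 1) - V k‖ = ℓ (k - 1) := by
  have := norm_step h (k - 1)
  rw [sub_add_cancel] at this
  rw [← this, norm_sub_rev]

theorem exp_id (a b : ℝ) : Complex.exp (((Real.pi - (b - a) : ℝ) : ℂ) * Complex.I) *
    Complex.exp ((b : ℂ) * Complex.I) = -Complex.exp ((a : ℂ) * Complex.I) := by
  rw [← Complex.exp_add]
  have : ((Real.pi - (b - a) : ℝ) : ℂ) * Complex.I + (b : ℂ) * Complex.I =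
      (a : ℂ) * Complex.I + (Real.pi : ℂ) * Complex.I := by
    push_cast
    ring
  rw [this, Complex.exp_add, Complex.exp_pi_mul_I]
  ring

theorem tele (D : ℤ → ℝ) (m : ℕ) :
    ∑ k ∈ Finset.range m, (Real.pi - (D (k : ℤ) - D ((k : ℤ) - 1))) =
      m * Real.pi - (D ((m : ℤ) - 1) - D (-1)) := by
  induction m with
  | zero => simp
  | succ m ih =>
    rw [Finset.sum_range_succ, ih]
    have : (((m + 1 : ℕ) : ℤ) - 1) = (m : ℤ) := by push_cast; ring
    rw [this]
    push_cast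
    ring

theorem main (hS : TaskSimple) : Pool.Agent.Y129.TaskPoly := by
  intro n V D ℓ h
  refine ⟨{ v := V, α := fun k => Real.pi - (D k - D (k - 1)), s := pos ℓ, three := h.three,
            v_per := h.V_per, α_per := ?_, simple := hS n V D ℓ h, α_mem := ?_, angle := ?_,
            angle_sum := ?_, s_zero := pos_zero ℓ, s_succ := ?_ }, fun _ => rfl, pos_succ ℓ⟩
  · intro k
    have h1 := h.D_per k
    have h2 := h.D_per (k - 1)
    have h3 : k + (n : ℤ) - 1 = k - 1 + n := by ring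
    show Real.pi - (D (k + n) - D (k + n - 1)) = Real.pi - (D k - D (k - 1))
    rw [h3, h1, h2]
    ring
  · intro k
    have h1 := h.D_lt (k - 1)
    rw [sub_add_cancel] at h1
    have := Real.pi_pos
    constructor
    · show 0 < Real.pi - (D k - D (k - 1))
      linarith [h1.2]
    · show Real.pi - (D k - D (k - 1)) < 2 * Real.pi
      linarith [h1.1]
  · intro k
    show (V (k - 1) - V k) * (‖V (k + 1) - V k‖ : ℂ) =
      Complex.exp (((Real.pi - (D k - D (k - 1)) : ℝ) : ℂ) * Complex.I) * (V (k + 1) - V k) *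
        (‖V (k - 1) - V k‖ : ℂ)
    rw [norm_step h k, norm_step' h k, step' h k, h.step k]
    have := exp_id (D (k - 1)) (D k)
    calc -((ℓ (k - 1) : ℂ) * Complex.exp (D (k - 1) * Complex.I)) * (ℓ k : ℂ)
        = (ℓ (k - 1) : ℂ) * (ℓ k : ℂ) * (-Complex.exp ((D (k - 1) : ℂ) * Complex.I)) := by ring
      _ = (ℓ (k - 1) : ℂ) * (ℓ k : ℂ) *
          (Complex.exp (((Real.pi - (D k - D (k - 1)) : ℝ) : ℂ) * Complex.I) *
            Complex.exp ((D k : ℂ) * Complex.I)) := by rw [this]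
      _ = _ := by ring
  · show ∑ k ∈ Finset.range n, (Real.pi - (D (k : ℤ) - D ((k : ℤ) - 1))) =
      ((n : ℝ) - 2) * Real.pi
    rw [tele]
    have h1 := h.D_per (-1)
    have h2 : (n : ℤ) - 1 = -1 + n := by ring
    rw [h2, h1]
    ring
  · intro k
    rw [pos_succ]
    exact (norm_step h k).symm

end Pool.Agent.Y129.TaskPoly
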