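import Pool.Agent.Y129.Stmts

set_option autoImplicit false

namespace Pool.Agent.Y129.TaskRange

theorem main : Pool.Agent.Y129.TaskRange := by
  intro ι f g h
  have he : ∀ i j, f i = f j ↔ g i = g j := by
    intro i j
    constructor
    · intro e; exact le_antisymm ((h i j).1 e.le) ((h j i).1 e.ge)
    · intro e; exact le_antisymm ((h i j).2 e.le) ((h j i).2 e.ge)
  have hf : ∀ x : Set.range f, f x.2.choose = x := fun x => x.2.choose_spec
  have hg : ∀ x : Set.range g, g x.2.choose = x := fun x => x.2.choose_spec
  refine ⟨{ toFun := fun x => ⟨g x.2.choose, Set.mem_range_self _⟩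
            invFun := fun y => ⟨f y.2.choose, Set.mem_range_self _⟩
            left_inv := ?_
            right_inv := ?_
            map_rel_iff' := ?_ }, ?_⟩
  · intro x
    apply Subtype.ext
    have h1 := hg ⟨g x.2.choose, Set.mem_range_self _⟩
    exact ((he _ _).2 h1).trans (hf x)
  · intro y
    apply Subtype.ext
    have h1 := hf ⟨f y.2.choose, Set.mem_range_self _⟩
    exact ((he _ _).1 h1).trans (hg y)
  · intro x y
    show g x.2.choose ≤ g y.2.choose ↔ x ≤ y
    rw [← h, hf x, hf y]
    rfl
  · intro i
    exact (he _ _).1 (hf ⟨f i, Set.mem_range_self i⟩)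

end Pool.Agent.Y129.TaskRange
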