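import Pool.Agent.Y129.Stmts

set_option autoImplicit false

namespace Pool.Agent.Y129.TaskRank

open Pool.Agent.Y129
open scoped Classical

theorem main : Pool.Agent.Y129.TaskRank := by
  intro Z F h
  let code : ℝ → ℕ := fun x => (Z.filter (fun z => z < x)).card + (Z.filter (fun z => z ≤ x)).card
  have key : ∀ x ∈ F, ∀ y ∈ F, x < y → code x = code y → x = y := by
    intro x hx y hy hxy hc
    have s1 : Z.filter (fun z => z < x) ⊆ Z.filter (fun z => z < y) := by
      intro z hz
      rw [Finset.mem_filter] at hz ⊢
      exact ⟨hz.1, hz.2.trans hxy⟩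
    have s2 : Z.filter (fun z => z ≤ x) ⊆ Z.filter (fun z => z ≤ y) := by
      intro z hz
      rw [Finset.mem_filter] at hz ⊢
      exact ⟨hz.1, hz.2.trans hxy.le⟩
    have c1 := Finset.card_le_card s1
    have c2 := Finset.card_le_card s2
    have hc' : (Z.filter (fun z => z < x)).card + (Z.filter (fun z => z ≤ x)).card =
      (Z.filter (fun z => z < y)).card + (Z.filter (fun z => z ≤ y)).card := hc
    have e1 := Finset.eq_of_subset_of_card_le s1 (by omega)
    have e2 := Finset.eq_of_subset_of_card_le s2 (by omega)
    refine h x hx y hy fun z hz => ?_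
    have f1 : z < x ↔ z < y := by
      have : z ∈ Z.filter (fun z => z < x) ↔ z ∈ Z.filter (fun z => z < y) := by rw [e1]
      simpa [hz] using this
    have f2 : z ≤ x ↔ z ≤ y := by
      have : z ∈ Z.filter (fun z => z ≤ x) ↔ z ∈ Z.filter (fun z => z ≤ y) := by rw [e2]
      simpa [hz] using this
    constructor
    · rw [← not_le, ← not_le, f2]
    · constructor
      · intro hxz
        have g1 : z ≤ y := f2.1 hxz.ge
        have g2 : ¬ z < y := fun hzy => absurd (f1.2 hzy) (by rw [hxz]; exact lt_irrefl _)
        exact le_antisymm (not_lt.1 g2) g1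
      · intro hyz
        have g1 : z ≤ x := f2.2 hyz.ge
        have g2 : ¬ z < x := fun hzx => absurd (f1.1 hzx) (by rw [hyz]; exact lt_irrefl _)
        exact le_antisymm (not_lt.1 g2) g1
  have hinj : Set.InjOn code F := by
    intro x hx y hy hc
    rcases lt_trichotomy x y with hxy | hxy | hxy
    · exact key x hx y hy hxy hc
    · exact hxy
    · exact (key y hy x hx hxy hc.symm).symm
  have hmaps : ∀ x ∈ F, code x ∈ Finset.range (2 * Z.card + 1) := by
    intro x _
    rw [Finset.mem_range]
    have c1 := Finset.card_filter_le Z (fun z => z < x)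
    have c2 := Finset.card_filter_le Z (fun z => z ≤ x)
    show (Z.filter (fun z => z < x)).card + (Z.filter (fun z => z ≤ x)).card < _
    omega
  have := Finset.card_le_card_of_injOn code hmaps hinj
  rwa [Finset.card_range] at this

end Pool.Agent.Y129.TaskRank
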