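import Pool.Agent.Y129.Stmts

/-!
# `TaskReflexArc` (from `TaskSBasic` and `TaskAng`)

The gluings in normal position whose third point is no vertex, with a reflex vertex in the arc from
`b` to `a + L`: the third point is determined by two more vertices and a sign.
-/

namespace Pool.Agent.Y129.TaskReflexArc

open Set Pool.Agent.Y129

variable {n : ℕ}

theorem data (P : Poly n) (hmono : StrictMono P.s) (hper : ∀ k, P.s (k + n) = P.s k + P.L)
    (hang1 : ∀ k, P.ang (P.s k) = P.α k) (hang2 : ∀ x, ¬ P.isV x → P.ang x = Real.pi)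
    (G : Gluing P) (hN : Normal G) (hc : ¬ P.isV G.c) (hR : Refl G) :
    ∃ t : ℕ × ℕ × ℕ × Bool, t.1 < n ∧ t.2.1 < 2 * n ∧ t.2.2.1 < 2 * n ∧
      P.s (t.1 : ℤ) = G.a ∧ P.s (t.2.1 : ℤ) = G.b ∧
      ∃ r : ℤ, IsLeast {r : ℤ | (t.2.1 : ℤ) < r ∧ Real.pi < P.α r} r ∧
        G.c = if t.2.2.2 then P.s r + P.s (t.2.2.1 : ℤ) - G.b
          else P.s r + P.s (t.2.2.1 : ℤ) - G.a - P.L := by
  obtain ⟨ha0, haL, ⟨k1, hk1⟩, ⟨k2, hk2⟩⟩ := hN
  obtain ⟨r0, hr0b, hr0a, hr0⟩ := hR
  have hL : P.s (n : ℤ) = P.L := rfl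
  have h1 : 0 ≤ k1 := by
    by_contra hlt
    have := hmono (not_le.1 hlt)
    rw [hk1, P.s_zero] at this
    linarith
  have h2 : k1 < n := by
    by_contra hlt
    have := hmono.monotone (not_lt.1 hlt)
    rw [hk1, hL] at this
    linarith
  have h3 : k1 < k2 := by
    rw [← hmono.lt_iff_lt, hk1, hk2]
    exact G.hab
  have haL' : P.s (k1 + n) = G.a + P.L := by rw [hper, hk1]
  have h4 : k2 < k1 + n := by
    rw [← hmono.lt_iff_lt, hk2, haL']
    exact G.hbc.trans G.hca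
  -- the least reflex vertex after `b`
  obtain ⟨r, hr⟩ : ∃ r : ℤ, IsLeast {r : ℤ | k2 < r ∧ Real.pi < P.α r} r := by
    have hr0' : k2 < r0 := by
      rw [← hmono.lt_iff_lt, hk2]
      exact hr0b
    obtain ⟨lb, h5, h6⟩ := Int.exists_least_of_bdd (P := fun r : ℤ => k2 < r ∧ Real.pi < P.α r)
      ⟨k2, fun z hz => hz.1.le⟩ ⟨r0, hr0', hr0⟩
    exact ⟨lb, h5, fun z hz => h6 z hz⟩
  have hrb : G.b < P.s r := by
    rw [← hk2]
    exact hmono hr.1.1
  have hra : P.s r < G.a + P.L := by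
    have h5 : r ≤ r0 := hr.2 ⟨by
      rw [← hmono.lt_iff_lt, hk2]
      exact hr0b, hr0⟩
    exact (hmono.monotone h5).trans_lt hr0a
  -- partner
  have key : ∀ u w : ℝ, u < P.s r → P.s r < w → P.Fold u w → G.b ≤ u → w ≤ G.a + P.L →
      ∃ q : ℤ, 0 ≤ q ∧ q < 2 * n ∧ u + w - P.s r = P.s q := by
    intro u w hu hw hF hbu hwa
    have hV : P.isV (u + w - P.s r) := by
      by_cases he : P.s r = u + w - P.s r
      · exact ⟨r, he⟩
      · have h5 := hF (P.s r) hu hw he
        by_contra hV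
        have h6 := hang2 _ hV
        have h7 := hang1 r
        have h8 := hr.1.2
        rw [h6, h7] at h5
        linarith
    obtain ⟨q, hq⟩ := hV
    refine ⟨q, ?_, ?_, hq.symm⟩
    · have : k2 < q := by
        rw [← hmono.lt_iff_lt, hk2, hq]
        linarith
      omega
    · have : q < k1 + n := by
        rw [← hmono.lt_iff_lt, haL', hq]
        linarith
      omega
  have hne : P.s r ≠ G.c := fun h => hc ⟨r, h⟩
  rcases lt_or_gt_of_ne hne with hlt | hgt
  · obtain ⟨q, hq0, hq1, hq⟩ := key G.b G.c hrb hlt G.fbc le_rfl G.hca.le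
    refine ⟨(k1.toNat, k2.toNat, q.toNat, true), ?_, ?_, ?_, ?_, ?_, r, ?_, ?_⟩
    · show k1.toNat < n
      omega
    · show k2.toNat < 2 * n
      omega
    · show q.toNat < 2 * n
      omega
    · show P.s ((k1.toNat : ℕ) : ℤ) = G.a
      rw [Int.toNat_of_nonneg h1]
      exact hk1
    · show P.s ((k2.toNat : ℕ) : ℤ) = G.b
      rw [Int.toNat_of_nonneg (by omega)]
      exact hk2
    · show IsLeast {r : ℤ | ((k2.toNat : ℕ) : ℤ) < r ∧ Real.pi < P.α r} r
      rw [Int.toNat_of_nonneg (by omega)]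
      exact hr
    · show G.c = if true then P.s r + P.s ((q.toNat : ℕ) : ℤ) - G.b
          else P.s r + P.s ((q.toNat : ℕ) : ℤ) - G.a - P.L
      rw [Int.toNat_of_nonneg hq0, if_pos rfl]
      linarith
  · obtain ⟨q, hq0, hq1, hq⟩ := key G.c (G.a + P.L) hgt hra G.fca G.hbc.le le_rfl
    refine ⟨(k1.toNat, k2.toNat, q.toNat, false), ?_, ?_, ?_, ?_, ?_, r, ?_, ?_⟩
    · show k1.toNat < n
      omega
    · show k2.toNat < 2 * n
      omega
    · show q.toNat < 2 * n
      omega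
    · show P.s ((k1.toNat : ℕ) : ℤ) = G.a
      rw [Int.toNat_of_nonneg h1]
      exact hk1
    · show P.s ((k2.toNat : ℕ) : ℤ) = G.b
      rw [Int.toNat_of_nonneg (by omega)]
      exact hk2
    · show IsLeast {r : ℤ | ((k2.toNat : ℕ) : ℤ) < r ∧ Real.pi < P.α r} r
      rw [Int.toNat_of_nonneg (by omega)]
      exact hr
    · show G.c = if false then P.s r + P.s ((q.toNat : ℕ) : ℤ) - G.b
          else P.s r + P.s ((q.toNat : ℕ) : ℤ) - G.a - P.L
      rw [Int.toNat_of_nonneg hq0, if_neg (by simp)]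
      linarith

theorem main (hS : Pool.Agent.Y129.TaskSBasic) (hA : Pool.Agent.Y129.TaskAng) :
    Pool.Agent.Y129.TaskReflexArc := by
  intro n P F hF
  obtain ⟨hmono, hper, -, -⟩ := hS n P
  obtain ⟨hang1, hang2, -⟩ := hA n P
  have hex : ∀ G : Gluing P, ∃ t : ℕ × ℕ × ℕ × Bool, G ∈ F → (t.1 < n ∧ t.2.1 < 2 * n ∧
      t.2.2.1 < 2 * n ∧ P.s (t.1 : ℤ) = G.a ∧ P.s (t.2.1 : ℤ) = G.b ∧
      ∃ r : ℤ, IsLeast {r : ℤ | (t.2.1 : ℤ) < r ∧ Real.pi < P.α r} r ∧
        G.c = if t.2.2.2 then P.s r + P.s (t.2.2.1 : ℤ) - G.b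
          else P.s r + P.s (t.2.2.1 : ℤ) - G.a - P.L) := by
    intro G
    by_cases hG : G ∈ F
    · obtain ⟨h1, h2, h3⟩ := hF G hG
      obtain ⟨t, ht⟩ := data P hmono hper hang1 hang2 G h1 h2 h3
      exact ⟨t, fun _ => ht⟩
    · exact ⟨(0, 0, 0, true), fun h => absurd h hG⟩
  choose f hf using hex
  have hcard : F.card ≤ (Finset.range n ×ˢ (Finset.range (2 * n) ×ˢ (Finset.range (2 * n) ×ˢ
      (Finset.univ : Finset Bool)))).card := by
    refine Finset.card_le_card_of_injOn f ?_ ?_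
    · intro G hG
      obtain ⟨h1, h2, h3, -⟩ := hf G hG
      simp only [Finset.coe_product, Set.mem_prod, Finset.coe_range, Set.mem_Iio,
        Finset.coe_univ, Set.mem_univ, and_true]
      exact ⟨h1, h2, h3⟩
    · intro G hG G' hG' hfe
      obtain ⟨-, -, -, ha, hb, r, hr, hc⟩ := hf G hG
      obtain ⟨-, -, -, ha', hb', r', hr', hc'⟩ := hf G' hG'
      rw [← hfe] at ha' hb' hr' hc'
      have hrr : r = r' := hr.unique hr'
      subst hrr
      have ea : G.a = G'.a := ha.symm.trans ha'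
      have eb : G.b = G'.b := hb.symm.trans hb'
      refine Gluing.ext ea eb ?_
      rw [hc, hc', ea, eb]
  refine hcard.trans (le_of_eq ?_)
  simp only [Finset.card_product, Finset.card_range, Finset.card_univ, Fintype.card_bool]
  ring

end Pool.Agent.Y129.TaskReflexArc
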