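import Pool.Agent.Y129.Stmts

namespace Pool.Agent.Y129.TaskRot

open Set Pool.Agent.Y129

theorem label_two {n : ℕ} (P : Poly n) (x y : ℝ) :
    P.label {x, y} = (P.vset x ∪ P.vset y, P.eset x ∪ P.eset y) := by
  unfold Poly.label
  rw [Set.biUnion_insert, Set.biUnion_insert, Set.biUnion_singleton, Set.biUnion_singleton]

theorem label_three {n : ℕ} (P : Poly n) (x y z : ℝ) :
    P.label {x, y, z} = (P.vset x ∪ (P.vset y ∪ P.vset z), P.eset x ∪ (P.eset y ∪ P.eset z)) := by
  unfold Poly.label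
  rw [Set.biUnion_insert, Set.biUnion_insert, Set.biUnion_insert, Set.biUnion_insert,
    Set.biUnion_singleton, Set.biUnion_singleton]

theorem armIso_of_eq {n : ℕ} (P : Poly n) (J J' : Set ℝ) (a b a' b' : ℝ)
    (hn : P.nodes a b = P.nodes a' b')
    (hl : ∀ t, P.armLab J a b t = P.armLab J' a' b' t) : P.ArmIso J a b J' a' b' :=
  ⟨OrderIso.setCongr _ _ hn, fun t => hl t⟩

theorem main (hS : Pool.Agent.Y129.TaskSBasic) (hA : Pool.Agent.Y129.TaskAng) :
    Pool.Agent.Y129.TaskRot := by
  intro n P G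
  obtain ⟨-, -, hpos, -⟩ := hS n P
  obtain ⟨-, -, -, hang, hisV, hv, he⟩ := hA n P
  have fold' : P.Fold (G.a + P.L) (G.b + P.L) := by
    intro x hx1 hx2 hx3
    have h := G.fab (x - P.L) (by linarith) (by linarith) (by
      intro h; apply hx3; linarith)
    have e1 : P.ang x = P.ang (x - P.L) := by
      rw [← hang (x - P.L), sub_add_cancel]
    have e2 : P.ang (G.a + P.L + (G.b + P.L) - x) = P.ang (G.a + G.b - (x - P.L)) := by
      rw [← hang (G.a + G.b - (x - P.L))]
      congr 1
      ring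
    rw [e1, e2]
    exact h
  let G' : Gluing P :=
    { a := G.b
      b := G.c
      c := G.a + P.L
      hab := G.hbc
      hbc := G.hca
      hca := by linarith [G.hab]
      junction := by
        rw [hang]
        linarith [G.junction]
      fab := G.fbc
      fbc := G.fca
      fca := fold' }
  have hJ : P.label G.J = P.label G'.J := by
    show P.label {G.a, G.b, G.c} = P.label {G.b, G.c, G.a + P.L}
    rw [label_three, label_three, hv, he]
    refine Prod.ext ?_ ?_
    · ext k
      simp only [mem_union]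
      tauto
    · ext k
      simp only [mem_union]
      tauto
  have same : ∀ u w : ℝ, P.ArmIso G.J u w G'.J u w := by
    intro u w
    refine armIso_of_eq P _ _ _ _ _ _ rfl fun t => ?_
    unfold Poly.armLab
    by_cases ht : t = 0
    · rw [if_pos ht, if_pos ht, hJ]
    · rw [if_neg ht, if_neg ht]
  have shifted : P.ArmIso G.J G.a G.b G'.J (G.a + P.L) (G.b + P.L) := by
    refine armIso_of_eq P _ _ _ _ _ _ ?_ fun t => ?_
    · unfold Poly.nodes
      ext t
      have e1 : (G.b + P.L - (G.a + P.L)) / 2 = (G.b - G.a) / 2 := by ring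
      have e2 : G.a + P.L + t = G.a + t + P.L := by ring
      have e3 : G.b + P.L - t = G.b - t + P.L := by ring
      simp only [mem_setOf_eq]
      rw [e1, e2, e3, hisV, hisV]
    · unfold Poly.armLab
      by_cases ht : t = 0
      · rw [if_pos ht, if_pos ht, hJ]
      · rw [if_neg ht, if_neg ht]
        have e2 : G.a + P.L + t = G.a + t + P.L := by ring
        have e3 : G.b + P.L - t = G.b - t + P.L := by ring
        rw [label_two, label_two, e2, e3, hv, hv, he, he]
  refine ⟨G', rfl, rfl, rfl, ?_⟩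
  have key : ∃ σ : Equiv.Perm (Fin 3), σ 0 = 2 ∧ σ 1 = 0 ∧ σ 2 = 1 := by decide
  obtain ⟨σ, h0, h1, h2⟩ := key
  refine ⟨σ, fun i => ?_⟩
  fin_cases i
  · show P.ArmIso G.J (G.lo 0) (G.hi 0) G'.J (G'.lo (σ 0)) (G'.hi (σ 0))
    rw [h0]
    exact shifted
  · show P.ArmIso G.J (G.lo 1) (G.hi 1) G'.J (G'.lo (σ 1)) (G'.hi (σ 1))
    rw [h1]
    exact same G.b G.c
  · show P.ArmIso G.J (G.lo 2) (G.hi 2) G'.J (G'.lo (σ 2)) (G'.hi (σ 2))
    rw [h2]
    exact same G.c (G.a + P.L)

end Pool.Agent.Y129.TaskRot
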