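import Pool.Agent.Y129.Stmts

/-! `TaskSharp` of the blueprint for MP_d9fc2a_co (helper170). -/

namespace Pool.Agent.Y129.TaskSharp
open Pool.Agent.Y129

theorem main (hPoly : TaskPoly) (hPer : TaskPeriodic) (hClose : TaskClose) :
    Pool.Agent.Y129.TaskSharp := by
  intro N hN
  obtain ⟨D, ℓ, h1, h2, h3, h4, h5, h6, h7, h8, h9⟩ := hClose N hN
  have hpi := Real.pi_pos
  have hN3 : (3 : ℝ) ≤ N := by exact_mod_cast hN
  have hN1 : (0 : ℝ) < (N : ℝ) + 1 := by linarith
  set q : ℝ := Real.pi / ((N : ℝ) + 1) with hq
  have hq0 : 0 < q := div_pos hpi hN1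
  have hq4 : q ≤ Real.pi / 4 := by
    rw [hq]
    exact div_le_div_of_nonneg_left hpi.le (by norm_num) (by linarith)
  have hqN : q * ((N : ℝ) + 1) = Real.pi := by
    rw [hq]; field_simp
  have hD : ∀ k < N, D k = q * ((k : ℝ) + 1) := by
    intro k hk
    rw [(h1 k hk).2, hq]; ring
  have hstep : ∀ k, k + 1 < N → D (k + 1) - D k = q := by
    intro k hk
    rw [hD (k + 1) hk, hD k (by omega)]
    push_cast; ring
  have hD0 : D 0 = q := by
    rw [hD 0 (by omega)]; push_cast; ring
  obtain ⟨V, D', ℓ', hC, hD', hℓ'⟩ := hPer (N + 2) D ℓ (by omega)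
    (by
      intro k hk
      rcases lt_or_ge k N with h | h
      · rw [(h1 k h).1]; positivity
      · rcases Nat.lt_or_ge k (N + 1) with h' | h'
        · have : k = N := by omega
          subst this; linarith
        · have : k = N + 1 := by omega
          subst this; exact h3)
    (by
      intro k hk
      rcases Nat.lt_or_ge (k + 1) N with h | h
      · have := hstep k h
        constructor <;> linarith
      · rcases Nat.lt_or_ge (k + 1) (N + 1) with h' | h'
        · have hk' : k + 1 = N := by omega
          have e1 : D k = q * N := by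
            rw [hD k (by omega)]
            have : (k : ℝ) + 1 = N := by exact_mod_cast hk'
            rw [this]
          rw [hk']
          constructor
          · nlinarith
          · nlinarith
        · have hk' : k = N := by omega
          subst hk'
          constructor <;> linarith)
    (by show D (N + 1) < D 0 + 2 * Real.pi; linarith)
    (by show D 0 + 2 * Real.pi < D (N + 1) + Real.pi; linarith) h9
  obtain ⟨P, hα, hs⟩ := hPoly (N + 2) V D' ℓ' hC
  refine ⟨P, hN, ?_, ?_, ?_, ?_⟩
  · intro k hk
    induction k with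
    | zero => simp [P.s_zero]
    | succ k ih =>
      have e1 := hs (k : ℤ)
      rw [hℓ' k (by omega), (h1 k (by omega)).1] at e1
      have e2 := ih (by omega)
      push_cast at e2 ⊢
      rw [pow_succ] at e1 ⊢
      linarith
  · have e1 := hs (N : ℤ)
    rw [hℓ' N (by omega)] at e1
    linarith
  · intro k
    have e1 := (hC.D_lt (k - 1)).1
    rw [sub_add_cancel] at e1
    rw [hα k]
    linarith
  · intro k hk1 hkN
    obtain ⟨j, rfl⟩ : ∃ j, k = j + 1 := ⟨k - 1, by omega⟩
    have a1 : P.α ((j + 1 : ℕ) : ℤ) = Real.pi - q := by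
      rw [hα, hD' (j + 1) (by omega)]
      have : (((j + 1 : ℕ) : ℤ) - 1) = (j : ℤ) := by push_cast; ring
      rw [this, hD' j (by omega), hstep j (by omega)]
    have a2 : P.α ((N : ℤ) + 1) ≤ q := by
      have e1 : ((N : ℤ) + 1) = ((N + 1 : ℕ) : ℤ) := by push_cast; ring
      rw [hα, e1, hD' (N + 1) (by omega)]
      have : (((N + 1 : ℕ) : ℤ) - 1) = (N : ℤ) := by push_cast; ring
      rw [this, hD' N (by omega)]
      linarith
    push_cast at a1 a2 ⊢
    linarith

end Pool.Agent.Y129.TaskSharp
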