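import Pool.Agent.Y129.Stmts

set_option autoImplicit false

namespace Pool.Agent.Y129.TaskShift

open Pool.Agent.Y129 Set

theorem label_image {n : ℕ} (P : Poly n) (t : ℝ) (hv : ∀ x, P.vset (x + t) = P.vset x)
    (he : ∀ x, P.eset (x + t) = P.eset x) (X : Set ℝ) :
    P.label ((fun x => x + t) '' X) = P.label X := by
  unfold Poly.label
  rw [Set.biUnion_image, Set.biUnion_image]
  simp only [hv, he]

theorem fold_shift {n : ℕ} (P : Poly n) (t : ℝ) (ha : ∀ x, P.ang (x + t) = P.ang x) (a b : ℝ)
    (h : P.Fold a b) : P.Fold (a + t) (b + t) := by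
  intro x hx1 hx2 hx3
  have h1 := h (x - t) (by linarith) (by linarith) (by intro hc; apply hx3; linarith)
  have h2 : P.ang (x - t) = P.ang x := by rw [← ha (x - t), sub_add_cancel]
  have h3 : P.ang (a + b - (x - t)) = P.ang (a + t + (b + t) - x) := by
    rw [← ha (a + b - (x - t))]
    exact congrArg P.ang (by ring)
  rw [h2, h3] at h1
  exact h1

theorem arm_shift {n : ℕ} (P : Poly n) (t : ℝ) (hv : ∀ x, P.vset (x + t) = P.vset x)
    (he : ∀ x, P.eset (x + t) = P.eset x) (hi : ∀ x, P.isV (x + t) ↔ P.isV x) (J J' : Set ℝ)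
    (hJ : P.label J = P.label J') (a b : ℝ) : P.ArmIso J a b J' (a + t) (b + t) := by
  have hn : P.nodes a b = P.nodes (a + t) (b + t) := by
    unfold Poly.nodes
    ext s
    have e1 : a + t + s = (a + s) + t := by ring
    have e2 : b + t - s = (b - s) + t := by ring
    have e3 : b + t - (a + t) = b - a := by ring
    simp only [Set.mem_ofPred_eq]
    rw [e1, e2, e3, hi, hi]
  refine ⟨OrderIso.setCongr _ _ hn, ?_⟩
  intro s
  have hs : ((OrderIso.setCongr _ _ hn s : P.nodes (a + t) (b + t)) : ℝ) = (s : ℝ) := rfl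
  rw [hs]
  unfold Poly.armLab
  by_cases h : (s : ℝ) = 0
  · rw [if_pos h, if_pos h]
    exact hJ
  · rw [if_neg h, if_neg h]
    have e : ({a + t + (s : ℝ), b + t - (s : ℝ)} : Set ℝ) =
        (fun x => x + t) '' {a + (s : ℝ), b - (s : ℝ)} := by
      rw [Set.image_pair]
      have e1 : a + t + (s : ℝ) = (a + s) + t := by ring
      have e2 : b + t - (s : ℝ) = (b - s) + t := by ring
      rw [e1, e2]
    rw [e, label_image P t hv he]

theorem main (hS : TaskSBasic) (hA : TaskAng) : Pool.Agent.Y129.TaskShift := by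
  intro n P G m
  obtain ⟨-, -, -, h4, h5, h6, h7⟩ := hA n P
  have ha : ∀ x, P.ang (x + m * P.L) = P.ang x :=
    (show Function.Periodic P.ang P.L from h4).int_mul m
  have hv : ∀ x, P.vset (x + m * P.L) = P.vset x :=
    (show Function.Periodic P.vset P.L from h6).int_mul m
  have he : ∀ x, P.eset (x + m * P.L) = P.eset x :=
    (show Function.Periodic P.eset P.L from h7).int_mul m
  have hi : ∀ x, P.isV (x + m * P.L) ↔ P.isV x := fun x => iff_of_eq
    ((show Function.Periodic P.isV P.L from fun x => propext (h5 x)).int_mul m x)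
  obtain ⟨t, ht⟩ : ∃ t : ℝ, t = m * P.L := ⟨_, rfl⟩
  rw [← ht] at ha hv he hi
  have hca : P.Fold (G.c + t) (G.a + t + P.L) := by
    have := fold_shift P t ha _ _ G.fca
    rwa [show G.a + P.L + t = G.a + t + P.L by ring] at this
  refine ⟨⟨G.a + t, G.b + t, G.c + t, by linarith [G.hab], by linarith [G.hbc],
    by linarith [G.hca], by rw [ha, ha, ha]; exact G.junction, fold_shift P t ha _ _ G.fab,
    fold_shift P t ha _ _ G.fbc, hca⟩, by rw [← ht], by rw [← ht], by rw [← ht], 1, ?_⟩
  intro i
  have hJ : P.label G.J = P.label ({G.a + t, G.b + t, G.c + t} : Set ℝ) := by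
    have : ({G.a + t, G.b + t, G.c + t} : Set ℝ) = (fun x => x + t) '' G.J := by
      unfold Gluing.J
      rw [Set.image_insert_eq, Set.image_pair]
    rw [this, label_image P t hv he]
  fin_cases i
  · exact arm_shift P t hv he hi _ _ hJ G.a G.b
  · exact arm_shift P t hv he hi _ _ hJ G.b G.c
  · show P.ArmIso G.J G.c (G.a + P.L) _ (G.c + t) (G.a + t + P.L)
    have := arm_shift P t hv he hi _ _ hJ G.c (G.a + P.L)
    rwa [show G.a + P.L + t = G.a + t + P.L by ring] at this

end Pool.Agent.Y129.TaskShift
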