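import Pool.Agent.Y129.Stmts

namespace Pool.Agent.Y129.TaskSidon

theorem aux (u w u' w' : ℕ) (h : u < w) (h' : u' < w')
    (he : ((1 : ℝ) / 2) ^ u + (1 / 2) ^ w = (1 / 2) ^ u' + (1 / 2) ^ w') : u' ≤ u := by
  by_contra hc
  push Not at hc
  -- u < u' < w'
  have h1 : ((1 : ℝ) / 2) ^ u' ≤ (1 / 2) ^ (u + 1) :=
    pow_le_pow_of_le_one (by norm_num) (by norm_num) hc
  have h2 : ((1 : ℝ) / 2) ^ w' ≤ (1 / 2) ^ (u + 2) :=
    pow_le_pow_of_le_one (by norm_num) (by norm_num) (by omega)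
  have h3 : (0 : ℝ) < (1 / 2) ^ w := by positivity
  have h4 : (0 : ℝ) < (1 / 2) ^ u := by positivity
  rw [pow_succ] at h1 h2
  rw [pow_succ] at h2
  linarith

theorem main : Pool.Agent.Y129.TaskSidon := by
  intro u w u' w' h h' he
  have e1 := aux u w u' w' h h' he
  have e2 := aux u' w' u w h' h he.symm
  have e : u = u' := le_antisymm e2 e1
  subst e
  refine ⟨rfl, ?_⟩
  have h5 : ((1 : ℝ) / 2) ^ w = (1 / 2) ^ w' := by linarith
  exact pow_right_injective₀ (by norm_num) (by norm_num) h5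

end Pool.Agent.Y129.TaskSidon
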