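import Pool.Agent.Y129.Stmts

set_option autoImplicit false

namespace Pool.Agent.Y129.TaskSimple

theorem main (hLeft : TaskLeft) : Pool.Agent.Y129.TaskSimple := by
  intro n V D ℓ hC i j x y hx0 hx1 hy0 hy1 h
  have hn := hC.three
  have hper : Function.Periodic V (n : ℤ) := hC.V_per
  -- the functional
  set c : ℂ := Complex.exp (-(D i) * Complex.I) with hc
  set f : ℂ → ℝ := fun z => (c * (z - V i)).im with hf
  have hf_aff : ∀ (a b : ℂ) (t : ℝ), f (a + t * (b - a)) = (1 - t) * f a + t * f b := by
    intro a b t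
    simp only [hf, Complex.mul_im, Complex.sub_re, Complex.sub_im, Complex.add_re, Complex.add_im,
      Complex.mul_re, Complex.ofReal_re, Complex.ofReal_im]
    ring
  have hce : c * Complex.exp (D i * Complex.I) = 1 := by
    rw [hc, ← Complex.exp_add]
    simp
  have hf0 : f (V i) = 0 := by simp [hf]
  have hf1 : f (V (i + 1)) = 0 := by
    simp only [hf]
    rw [hC.step i, mul_left_comm, hce, mul_one, Complex.ofReal_im]
  have hd : V (i + 1) - V i ≠ 0 := by
    rw [hC.step i]
    exact mul_ne_zero (by exact_mod_cast (hC.ℓ_pos i).ne') (Complex.exp_ne_zero _)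
  -- reduction
  set r : ℤ := (j - i) % n with hr
  have hn0 : (0 : ℤ) < n := by exact_mod_cast (by omega : 0 < n)
  have hr0 : 0 ≤ r := Int.emod_nonneg _ hn0.ne'
  have hrn : r < n := Int.emod_lt_of_pos _ hn0
  have hj : j = i + r + ((j - i) / n) * n := by
    have := Int.emod_add_mul_ediv (j - i) n
    rw [hr]
    linarith
  have hVj : V j = V (i + r) := by
    conv_lhs => rw [hj]
    exact (hper.int_mul _) _
  have hVj1 : V (j + 1) = V (i + r + 1) := by
    have e : j + 1 = i + r + 1 + ((j - i) / n) * n := by linarith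
    rw [e]
    exact (hper.int_mul _) _
  rw [hVj, hVj1] at h
  have key := congrArg f h
  rw [hf_aff, hf_aff, hf0, hf1, mul_zero, mul_zero, add_zero] at key
  rcases lt_trichotomy r 1 with h1 | h1 | h1
  · -- `r = 0`
    have hr00 : r = 0 := by omega
    rw [hr00, add_zero] at h
    have h2 : (x : ℂ) * (V (i + 1) - V i) = y * (V (i + 1) - V i) := add_left_cancel h
    have h3 := mul_right_cancel₀ hd h2
    refine ⟨Int.dvd_of_emod_eq_zero (by rw [← hr]; exact hr00), by exact_mod_cast h3⟩
  · -- `r = 1`
    exfalso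
    rw [h1] at h key
    rw [hf1, mul_zero, zero_add] at key
    have h2 : 0 < f (V (i + 1 + 1)) := hLeft n V D ℓ hC i (i + 1 + 1) (by linarith) (by
      have : (3 : ℤ) ≤ n := by exact_mod_cast hn
      linarith)
    have hy : y = 0 := by
      rcases mul_eq_zero.1 key.symm with h3 | h3
      · exact h3
      · exact absurd h3 h2.ne'
    rw [hy, Complex.ofReal_zero, zero_mul, add_zero] at h
    have h4 : (x : ℂ) * (V (i + 1) - V i) = 1 * (V (i + 1) - V i) := by
      linear_combination h
    have h5 := mul_right_cancel₀ hd h4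
    have h6 : x = 1 := by exact_mod_cast h5
    linarith
  · exfalso
    have h2 : 0 < f (V (i + r)) := hLeft n V D ℓ hC i (i + r) (by linarith) (by linarith)
    have h3 : 0 ≤ f (V (i + r + 1)) := by
      rcases (show r + 1 ≤ n by omega).lt_or_eq with h4 | h4
      · exact (hLeft n V D ℓ hC i (i + r + 1) (by linarith) (by linarith)).le
      · have e : i + r + 1 = i + n := by linarith
        rw [e, hC.V_per, hf0]
    have h5 : 0 < (1 - y) * f (V (i + r)) := mul_pos (by linarith) h2
    have h6 : 0 ≤ y * f (V (i + r + 1)) := mul_nonneg hy0 h3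
    linarith

end Pool.Agent.Y129.TaskSimple
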