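import Pool.Agent.Y129.Stmts

set_option autoImplicit false

namespace Pool.Agent.Y129.TaskTurn

open Set Pool.Agent.Y129

theorem main (hS : TaskSBasic) (hA : TaskAng) (hW : TaskWindow) : Pool.Agent.Y129.TaskTurn := by
  intro n P a b hva hvb hab hbL hfold hsum hout T hT
  classical
  obtain ⟨hmono, hper, hL, -⟩ := hS n P
  obtain ⟨hang, hang', hangm, -, -, -, -⟩ := hA n P
  obtain ⟨k0, hk0⟩ := hva
  have hwin := hW n P k0
  set τ : ℝ → ℝ := fun x => Real.pi - P.ang x with hτ
  -- the indices
  set I : Finset ℤ := (Finset.Ico k0 (k0 + n)).filter (fun j => P.s j ≤ b) with hI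
  set S : Finset ℝ := I.image P.s with hSdef
  have hsumI : ∑ j ∈ I, (Real.pi - P.α j) ≤ 2 * Real.pi := by
    rw [← hwin]
    apply Finset.sum_le_sum_of_subset_of_nonneg (Finset.filter_subset _ _)
    intro j hj hj'
    have h1 : ¬ P.s j ≤ b := by
      intro h
      exact hj' (Finset.mem_filter.2 ⟨hj, h⟩)
    have h2 := Finset.mem_Ico.1 hj
    have h3 : P.s j < a + P.L := by
      rw [← hk0, ← hper]
      exact hmono h2.2
    have := hout j (not_le.1 h1) h3
    linarith
  have hsumS : ∑ x ∈ S, τ x ≤ 2 * Real.pi := by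
    rw [hSdef, Finset.sum_image (fun i _ j _ h => hmono.injective h)]
    refine le_trans (le_of_eq ?_) hsumI
    apply Finset.sum_congr rfl
    intro j _
    simp only [hτ]
    rw [hang]
  have hSmem : ∀ x, a ≤ x → x ≤ b → P.isV x → x ∈ S := by
    rintro x h1 h2 ⟨j, rfl⟩
    refine Finset.mem_image.2 ⟨j, Finset.mem_filter.2 ⟨Finset.mem_Ico.2 ⟨?_, ?_⟩, h2⟩, rfl⟩
    · rw [← hk0] at h1
      exact hmono.le_iff_le.1 h1
    · apply hmono.lt_iff_lt.1
      rw [hper, hk0]
      linarith
  have hSab : ∀ x ∈ S, a ≤ x ∧ x ≤ b := by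
    intro x hx
    obtain ⟨j, hj, rfl⟩ := Finset.mem_image.1 hx
    obtain ⟨h1, h2⟩ := Finset.mem_filter.1 hj
    refine ⟨?_, h2⟩
    rw [← hk0]
    exact hmono.monotone (Finset.mem_Ico.1 h1).1
  set X : Finset ℝ := S ∪ S.image (fun x => a + b - x) with hX
  have hXab : ∀ x ∈ X, a ≤ x ∧ x ≤ b := by
    intro x hx
    rcases Finset.mem_union.1 hx with h | h
    · exact hSab x h
    · obtain ⟨y, hy, rfl⟩ := Finset.mem_image.1 h
      have := hSab y hy
      constructor <;> linarith [this.1, this.2]
  have hXsymm : ∀ x ∈ X, a + b - x ∈ X := by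
    intro x hx
    rcases Finset.mem_union.1 hx with h | h
    · exact Finset.mem_union.2 (Or.inr (Finset.mem_image.2 ⟨x, h, rfl⟩))
    · obtain ⟨y, hy, rfl⟩ := Finset.mem_image.1 h
      refine Finset.mem_union.2 (Or.inl ?_)
      rw [show a + b - (a + b - y) = y by ring]
      exact hy
  have hsumX : ∑ x ∈ X, τ x ≤ 2 * Real.pi := by
    refine le_trans (le_of_eq ?_) hsumS
    symm
    apply Finset.sum_subset Finset.subset_union_left
    intro x hx hxS
    have h1 : ¬ P.isV x := fun h => hxS (hSmem x (hXab x hx).1 (hXab x hx).2 h)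
    simp only [hτ]
    rw [hang' x h1, sub_self]
  have hrefl : ∑ x ∈ X, τ (a + b - x) = ∑ x ∈ X, τ x := by
    apply Finset.sum_nbij' (fun x => a + b - x) (fun x => a + b - x)
    · exact hXsymm
    · exact hXsymm
    · intro x _; ring
    · intro x _; ring
    · intro x _; rfl
  have htot : ∑ x ∈ X, (τ x + τ (a + b - x)) ≤ 4 * Real.pi := by
    rw [Finset.sum_add_distrib, hrefl]
    linarith
  -- nonnegativity
  have hnn : ∀ x ∈ X, x ≠ (a + b) / 2 → 0 ≤ τ x + τ (a + b - x) := by
    intro x hx hne
    obtain ⟨h1, h2⟩ := hXab x hx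
    simp only [hτ]
    rcases h1.eq_or_lt with h3 | h3
    · subst h3
      rw [show a + b - a = b by ring]
      linarith
    rcases h2.eq_or_lt with h4 | h4
    · subst h4
      rw [show a + x - x = a by ring]
      linarith
    have := hfold x h3 h4 (by
      intro h
      apply hne
      linarith)
    linarith
  have hTX : ∀ x ∈ T, x ∈ X := by
    intro x hx
    obtain ⟨h1, h2, h3⟩ := hT x hx
    have h4 := (hangm x).1
    have h5 := (hangm (a + b - x)).1
    have hpi := Real.pi_pos
    by_cases hv : P.isV x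
    · exact Finset.mem_union.2 (Or.inl (hSmem x h1 (by linarith) hv))
    · rw [hang' x hv] at h3
      linarith
  set T' : Finset ℝ := T.image (fun x => a + b - x) with hT'
  have hcard' : T'.card = T.card := by
    apply Finset.card_image_of_injective
    intro x y h
    simp only at h
    linarith
  have hdisj : Disjoint T T' := by
    rw [Finset.disjoint_left]
    intro x hx hx'
    obtain ⟨y, hy, hxy⟩ := Finset.mem_image.1 hx'
    have h1 := (hT x hx).2.1
    have h2 := (hT y hy).2.1
    linarith
  have hT'X : ∀ x ∈ T', x ∈ X := by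
    intro x hx
    obtain ⟨y, hy, rfl⟩ := Finset.mem_image.1 hx
    exact hXsymm y (hTX y hy)
  have hlow : ∀ x ∈ T ∪ T', Real.pi ≤ τ x + τ (a + b - x) := by
    intro x hx
    rcases Finset.mem_union.1 hx with h | h
    · have := (hT x h).2.2
      simp only [hτ]
      linarith
    · obtain ⟨y, hy, rfl⟩ := Finset.mem_image.1 h
      have := (hT y hy).2.2
      simp only [hτ]
      rw [show a + b - (a + b - y) = y by ring]
      linarith
  have hmid : (a + b) / 2 ∉ T ∪ T' := by
    intro h
    rcases Finset.mem_union.1 h with h | h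
    · have := (hT _ h).2.1
      linarith
    · obtain ⟨y, hy, hxy⟩ := Finset.mem_image.1 h
      have := (hT y hy).2.1
      linarith
  have hmain : (2 * T.card : ℝ) * Real.pi - 2 * Real.pi < ∑ x ∈ X, (τ x + τ (a + b - x)) := by
    have hsub : T ∪ T' ⊆ X.erase ((a + b) / 2) := by
      intro x hx
      refine Finset.mem_erase.2 ⟨?_, ?_⟩
      · rintro rfl
        exact hmid hx
      · rcases Finset.mem_union.1 hx with h | h
        · exact hTX x h
        · exact hT'X x h
    have h1 : (2 * T.card : ℝ) * Real.pi ≤ ∑ x ∈ T ∪ T', (τ x + τ (a + b - x)) := by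
      have := Finset.card_nsmul_le_sum (T ∪ T') _ _ hlow
      rw [Finset.card_union_of_disjoint hdisj, hcard', nsmul_eq_mul] at this
      push_cast at this
      linarith
    have h2 : ∑ x ∈ T ∪ T', (τ x + τ (a + b - x)) ≤
        ∑ x ∈ X.erase ((a + b) / 2), (τ x + τ (a + b - x)) := by
      apply Finset.sum_le_sum_of_subset_of_nonneg hsub
      intro x hx _
      exact hnn x (Finset.mem_of_mem_erase hx) (Finset.ne_of_mem_erase hx)
    by_cases hm : (a + b) / 2 ∈ X
    · rw [← Finset.add_sum_erase X _ hm]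
      have h3 := (hangm ((a + b) / 2)).2
      have h4 : τ ((a + b) / 2) + τ (a + b - (a + b) / 2) = 2 * (Real.pi - P.ang ((a + b) / 2)) := by
        simp only [hτ]
        rw [show a + b - (a + b) / 2 = (a + b) / 2 by ring]
        ring
      rw [h4]
      linarith
    · rw [Finset.erase_eq_of_notMem hm] at h2
      have := Real.pi_pos
      linarith
  have hfin : (T.card : ℝ) < 3 := by
    have hpi := Real.pi_pos
    have h : (2 * T.card : ℝ) * Real.pi < 6 * Real.pi := by linarith
    have := lt_of_mul_lt_mul_right h hpi.le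
    linarith
  have : T.card < 3 := by exact_mod_cast hfin
  omega

end Pool.Agent.Y129.TaskTurn
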