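import Pool.Agent.Y129.Stmts

namespace Pool.Agent.Y129.TaskUpper

open Classical

theorem main (hE : TaskEquiv) (hN : TaskNormal) (hA : TaskAllV) (hR : TaskReflexArc)
    (hNR : TaskNoReflexArc) : Pool.Agent.Y129.TaskUpper := by
  intro n P F hD
  choose g hg1 hg2 using hN n P
  have hinj : Set.InjOn g F := by
    intro G hG G' hG' h
    apply hD G hG G' hG'
    have h1 := hg1 G
    have h2 := hg1 G'
    rw [← h] at h2
    exact (hE n P).trans h1 ((hE n P).symm h2)
  set F' := F.image g with hF'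
  have hcard : F'.card = F.card := Finset.card_image_of_injOn hinj
  have hN' : ∀ G ∈ F', Normal G := by
    intro G hG
    obtain ⟨G0, _, rfl⟩ := Finset.mem_image.1 hG
    exact hg2 G0
  have hD' : Distinct F' := by
    intro G hG G' hG' h
    obtain ⟨G0, h0, rfl⟩ := Finset.mem_image.1 hG
    obtain ⟨G1, h1, rfl⟩ := Finset.mem_image.1 hG'
    have : SameType G0 G1 :=
      (hE n P).trans ((hE n P).trans (hg1 G0) h) ((hE n P).symm (hg1 G1))
    rw [hD G0 h0 G1 h1 this]
  have e1 := hA n P (F'.filter (fun G => P.isV G.c)) (by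
    intro G hG
    rw [Finset.mem_filter] at hG
    exact ⟨hN' G hG.1, hG.2⟩)
  have e2 := hR n P (F'.filter (fun G => ¬ P.isV G.c ∧ Refl G)) (by
    intro G hG
    rw [Finset.mem_filter] at hG
    exact ⟨hN' G hG.1, hG.2⟩)
  have e3 := hNR n P (F'.filter (fun G => ¬ P.isV G.c ∧ ¬ Refl G)) (by
    intro G hG
    rw [Finset.mem_filter] at hG
    exact ⟨hN' G hG.1, hG.2⟩) (by
    intro G hG G' hG' h
    exact hD' G (Finset.mem_filter.1 hG).1 G' (Finset.mem_filter.1 hG').1 h)
  have hsub : F' ⊆ F'.filter (fun G => P.isV G.c) ∪ (F'.filter (fun G => ¬ P.isV G.c ∧ Refl G) ∪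
      F'.filter (fun G => ¬ P.isV G.c ∧ ¬ Refl G)) := by
    intro G hG
    simp only [Finset.mem_union, Finset.mem_filter]
    tauto
  have e4 := Finset.card_le_card hsub
  have e5 := Finset.card_union_le (F'.filter (fun G => P.isV G.c))
    (F'.filter (fun G => ¬ P.isV G.c ∧ Refl G) ∪ F'.filter (fun G => ¬ P.isV G.c ∧ ¬ Refl G))
  have e6 := Finset.card_union_le (F'.filter (fun G => ¬ P.isV G.c ∧ Refl G))
    (F'.filter (fun G => ¬ P.isV G.c ∧ ¬ Refl G))
  rw [← hcard]
  omega

end Pool.Agent.Y129.TaskUpper
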