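import Pool.Agent.Y129.Stmts

set_option autoImplicit false

namespace Pool.Agent.Y129.TaskWindow

theorem ico_eq (f : ℤ → ℝ) (n : ℕ) (k : ℤ) :
    ∑ j ∈ Finset.Ico k (k + n), f j = ∑ i ∈ Finset.range n, f (k + (i : ℤ)) := by
  refine Finset.sum_nbij' (fun j => (j - k).toNat) (fun i => k + (i : ℤ)) ?_ ?_ ?_ ?_ ?_
  · intro j hj
    rw [Finset.mem_Ico] at hj
    rw [Finset.mem_range]
    omega
  · intro i hi
    rw [Finset.mem_range] at hi
    rw [Finset.mem_Ico]
    omega
  · intro j hj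
    rw [Finset.mem_Ico] at hj
    show k + ((j - k).toNat : ℤ) = j
    rw [Int.toNat_of_nonneg (by omega)]
    ring
  · intro i hi
    show (k + (i : ℤ) - k).toNat = i
    rw [add_sub_cancel_left]
    exact Int.toNat_natCast i
  · intro j hj
    rw [Finset.mem_Ico] at hj
    show f j = f (k + ((j - k).toNat : ℤ))
    rw [Int.toNat_of_nonneg (by omega)]
    congr 1
    ring

theorem step (f : ℤ → ℝ) (n : ℕ) (hf : ∀ k, f (k + n) = f k) (k : ℤ) :
    ∑ i ∈ Finset.range n, f (k + 1 + (i : ℤ)) = ∑ i ∈ Finset.range n, f (k + (i : ℤ)) := by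
  have h1 := Finset.sum_range_succ (fun i : ℕ => f (k + (i : ℤ))) n
  have h2 := Finset.sum_range_succ' (fun i : ℕ => f (k + (i : ℤ))) n
  have h3 : ∑ i ∈ Finset.range n, f (k + ((i + 1 : ℕ) : ℤ)) =
      ∑ i ∈ Finset.range n, f (k + 1 + (i : ℤ)) := by
    refine Finset.sum_congr rfl fun i _ => ?_
    congr 1
    push_cast
    ring
  rw [h3] at h2
  have h4 : f (k + ((0 : ℕ) : ℤ)) = f k := by simp
  have h5 := hf k
  rw [h4] at h2
  rw [h5] at h1
  linarith

theorem const (f : ℤ → ℝ) (n : ℕ) (hf : ∀ k, f (k + n) = f k) (k : ℤ) :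
    ∑ i ∈ Finset.range n, f (k + (i : ℤ)) = ∑ i ∈ Finset.range n, f (0 + (i : ℤ)) := by
  induction k using Int.induction_on with
  | zero => rfl
  | succ m ih => rw [step f n hf, ih]
  | pred m ih =>
    have h := step f n hf (-(m : ℤ) - 1)
    rw [sub_add_cancel] at h
    rw [← h, ih]

theorem main : Pool.Agent.Y129.TaskWindow := by
  intro n P k
  rw [ico_eq, const (fun j => Real.pi - P.α j) n (fun k => by rw [P.α_per k]) k]
  simp only [zero_add]
  rw [Finset.sum_sub_distrib, P.angle_sum, Finset.sum_const, Finset.card_range, nsmul_eq_mul]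
  ring

end Pool.Agent.Y129.TaskWindow
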