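import Mathlib

/-!
Blueprint (helper129) for MP_d9fc2a_co: the maximum number `f n` of three-leaf gluing trees of a
simple polygon with `n` vertices has order `n ^ 3`.
-/

namespace Pool.Agent.Y129

open Set

noncomputable section

/-- A simple polygon with `n` vertices, traversed counterclockwise: vertices `v k`, interior angles
`α k` (indices mod `n`), and positions `s k` of the vertices in the arc length parametrisation of
the boundary. `simple`: the closed polygonal curve has no double points. `angle`: turning the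
direction of the edge from `v k` to `v (k+1)` by `α k` gives the direction to `v (k-1)`. -/
structure Poly (n : ℕ) where
  v : ℤ → ℂ
  α : ℤ → ℝ
  s : ℤ → ℝ
  three : 3 ≤ n
  v_per : ∀ k, v (k + n) = v k
  α_per : ∀ k, α (k + n) = α k
  simple : ∀ i j : ℤ, ∀ x y : ℝ, 0 ≤ x → x < 1 → 0 ≤ y → y < 1 →
    v i + x * (v (i + 1) - v i) = v j + y * (v (j + 1) - v j) → ((n : ℤ) ∣ j - i) ∧ x = y
  α_mem : ∀ k, 0 < α k ∧ α k < 2 * Real.pi
  angle : ∀ k, (v (k - 1) - v k) * (‖v (k + 1) - v k‖ : ℂ) =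
    Complex.exp (α k * Complex.I) * (v (k + 1) - v k) * (‖v (k - 1) - v k‖ : ℂ)
  angle_sum : ∑ k ∈ Finset.range n, α (k : ℤ) = ((n : ℝ) - 2) * Real.pi
  s_zero : s 0 = 0
  s_succ : ∀ k, s (k + 1) - s k = ‖v (k + 1) - v k‖

variable {n : ℕ}

namespace Poly

/-- The perimeter. -/
def L (P : Poly n) : ℝ := P.s n

/-- `x` is the position of a vertex. -/
def isV (P : Poly n) (x : ℝ) : Prop := ∃ k, P.s k = x

open Classical in
/-- The interior angle at the boundary point at position `x` (`π` if it is no vertex). -/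
def ang (P : Poly n) (x : ℝ) : ℝ := if h : ∃ k, P.s k = x then P.α h.choose else Real.pi

/-- The vertices at the position `x` (one or none). -/
def vset (P : Poly n) (x : ℝ) : Set (ZMod n) := {k | ∃ j : ℤ, (j : ZMod n) = k ∧ P.s j = x}

/-- The edges with the position `x` in their interior (one or none). -/
def eset (P : Poly n) (x : ℝ) : Set (ZMod n) :=
  {k | ∃ j : ℤ, (j : ZMod n) = k ∧ P.s j < x ∧ x < P.s (j + 1)}

/-- The label of a set of boundary positions: the vertices and the edges (interior points) in it. -/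
def label (P : Poly n) (X : Set ℝ) : Set (ZMod n) × Set (ZMod n) :=
  (⋃ x ∈ X, P.vset x, ⋃ x ∈ X, P.eset x)

/-- The arc from `a` to `b` may be folded at its midpoint. -/
def Fold (P : Poly n) (a b : ℝ) : Prop :=
  ∀ x, a < x → x < b → x ≠ a + b - x → P.ang x + P.ang (a + b - x) ≤ 2 * Real.pi

/-- The nodes of the arm of the gluing tree that comes from the arc from `a` to `b`, given by their
distance `t` from the junction. -/
def nodes (P : Poly n) (a b : ℝ) : Set ℝ :=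
  {t | 0 ≤ t ∧ t ≤ (b - a) / 2 ∧ (t = 0 ∨ t = (b - a) / 2 ∨ P.isV (a + t) ∨ P.isV (b - t))}

open Classical in
/-- The label of the point at distance `t` from the junction; `J` is the set glued at the
junction. -/
def armLab (P : Poly n) (J : Set ℝ) (a b t : ℝ) : Set (ZMod n) × Set (ZMod n) :=
  P.label (if t = 0 then J else {a + t, b - t})

/-- The arms of the arcs `a b` and `a' b'` are isomorphic as labelled paths. -/
def ArmIso (P : Poly n) (J : Set ℝ) (a b : ℝ) (J' : Set ℝ) (a' b' : ℝ) : Prop :=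
  ∃ φ : P.nodes a b ≃o P.nodes a' b',
    ∀ t : P.nodes a b, P.armLab J a b (t : ℝ) = P.armLab J' a' b' (φ t : ℝ)

end Poly

/-- A three-leaf gluing: the points `a < b < c < a + L` of the boundary are glued to the junction and
the three arcs between them are folded at their midpoints; all angle sums are at most `2 π`. -/
@[ext] structure Gluing (P : Poly n) where
  a : ℝ
  b : ℝ
  c : ℝ
  hab : a < b
  hbc : b < c
  hca : c < a + P.L
  junction : P.ang a + P.ang b + P.ang c ≤ 2 * Real.pi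
  fab : P.Fold a b
  fbc : P.Fold b c
  fca : P.Fold c (a + P.L)

namespace Gluing

variable {P : Poly n}

/-- The junction. -/
def J (G : Gluing P) : Set ℝ := {G.a, G.b, G.c}

def lo (G : Gluing P) : Fin 3 → ℝ := ![G.a, G.b, G.c]

def hi (G : Gluing P) : Fin 3 → ℝ := ![G.b, G.c, G.a + P.L]

end Gluing

/-- The gluing trees of `G` and `G'` have the same combinatorial type: they are isomorphic as
labelled trees. -/
def SameType {P : Poly n} (G G' : Gluing P) : Prop :=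
  ∃ σ : Equiv.Perm (Fin 3), ∀ i,
    P.ArmIso G.J (G.lo i) (G.hi i) G'.J (G'.lo (σ i)) (G'.hi (σ i))

/-- The gluings in `F` have pairwise different types. -/
def Distinct {P : Poly n} (F : Finset (Gluing P)) : Prop :=
  ∀ G ∈ F, ∀ G' ∈ F, SameType G G' → G = G'

/-- Normal position. -/
def Normal {P : Poly n} (G : Gluing P) : Prop :=
  0 ≤ G.a ∧ G.a < P.L ∧ P.isV G.a ∧ P.isV G.b

/-- There is a reflex vertex in the open arc from `G.b` to `G.a + L`. -/
def Refl {P : Poly n} (G : Gluing P) : Prop :=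
  ∃ r, G.b < P.s r ∧ P.s r < G.a + P.L ∧ Real.pi < P.α r

def SameSign (x y z : ℝ) : Prop := (x < z ↔ y < z) ∧ (x = z ↔ y = z)

/-! ### Tasks -/

/-- Positions. Edge lengths are positive by `simple` (same `i`, `x = 0`, `y = 1/2`). -/
def TaskSBasic : Prop := ∀ (n : ℕ) (P : Poly n), StrictMono P.s ∧
  (∀ k, P.s (k + n) = P.s k + P.L) ∧ 0 < P.L ∧ (∀ x : ℝ, ∃ k : ℤ, P.s k ≤ x ∧ x < P.s (k + 1))

def TaskAng : Prop := ∀ (n : ℕ) (P : Poly n), (∀ k, P.ang (P.s k) = P.α k) ∧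
  (∀ x, ¬ P.isV x → P.ang x = Real.pi) ∧ (∀ x, 0 < P.ang x ∧ P.ang x < 2 * Real.pi) ∧
  (∀ x, P.ang (x + P.L) = P.ang x) ∧
  (∀ x, P.isV (x + P.L) ↔ P.isV x) ∧ (∀ x, P.vset (x + P.L) = P.vset x) ∧
  (∀ x, P.eset (x + P.L) = P.eset x)

/-- Sum over any window of `n` consecutive vertices. -/
def TaskWindow : Prop := ∀ (n : ℕ) (P : Poly n) (k : ℤ),
  ∑ j ∈ Finset.Ico k (k + n), (Real.pi - P.α j) = 2 * Real.pi

def TaskRange : Prop := ∀ (ι : Type) (f g : ι → ℝ), (∀ i j, f i ≤ f j ↔ g i ≤ g j) →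
  ∃ φ : Set.range f ≃o Set.range g, ∀ i, (φ ⟨f i, Set.mem_range_self i⟩ : ℝ) = g i

/-- The index type: zero, midpoint, vertices from the left, vertices from the right. -/
def TaskArmRight : Prop := ∀ (n : ℕ) (P : Poly n) (J J' : Set ℝ) (b c c' : ℝ), b < c → b < c' →
  P.label J = P.label J' → (∀ j, SameSign c c' (P.s j)) →
  (∀ j k, SameSign c c' (P.s j + P.s k - b)) → P.ArmIso J b c J' b c'

def TaskArmLeft : Prop := ∀ (n : ℕ) (P : Poly n) (J J' : Set ℝ) (c c' d : ℝ), c < d → c' < d →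
  P.label J = P.label J' → (∀ j, SameSign c c' (P.s j)) →
  (∀ j k, SameSign c c' (P.s j + P.s k - d)) → P.ArmIso J c d J' c' d

def TaskEquiv : Prop := ∀ (n : ℕ) (P : Poly n), Equivalence (SameType (P := P))

/-- Rotation of the three points. -/
def TaskRot : Prop := ∀ (n : ℕ) (P : Poly n) (G : Gluing P), ∃ G' : Gluing P,
  G'.a = G.b ∧ G'.b = G.c ∧ G'.c = G.a + P.L ∧ SameType G G'

def TaskShift : Prop := ∀ (n : ℕ) (P : Poly n) (G : Gluing P) (m : ℤ), ∃ G' : Gluing P,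
  G'.a = G.a + m * P.L ∧ G'.b = G.b + m * P.L ∧ G'.c = G.c + m * P.L ∧ SameType G G'

/-- At most one of `a, b, c` is no vertex (angle sum); rotate so that it is `c`, then shift. -/
def TaskNormal : Prop := ∀ (n : ℕ) (P : Poly n) (G : Gluing P), ∃ G' : Gluing P,
  SameType G G' ∧ Normal G'

def TaskAllV : Prop := ∀ (n : ℕ) (P : Poly n) (F : Finset (Gluing P)),
  (∀ G ∈ F, Normal G ∧ P.isV G.c) → F.card ≤ 4 * n ^ 3

/-- `r` = least index after that of `b` with `α r > π`: its partner `b + c - s r` (or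
`c + (a + L) - s r`) is itself or has angle `< π`, so it is a vertex `s q` and `c` is one of
`s r + s q - b`, `s r + s q - (a + L)`. -/
def TaskReflexArc : Prop := ∀ (n : ℕ) (P : Poly n) (F : Finset (Gluing P)),
  (∀ G ∈ F, Normal G ∧ ¬ P.isV G.c ∧ Refl G) → F.card ≤ 8 * n ^ 3

def TaskRank : Prop := ∀ (Z F : Finset ℝ),
  (∀ x ∈ F, ∀ y ∈ F, (∀ z ∈ Z, SameSign x y z) → x = y) → F.card ≤ 2 * Z.card + 1

/-- In an interval of length at most `L` there are at most `n ^ 2` numbers `s j + s k - u` and at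
most `n` numbers `s j` (classes mod `n`). -/
def TaskCrit : Prop := ∀ (n : ℕ) (P : Poly n) (x y u : ℝ), y ≤ x + P.L →
  ({z | x < z ∧ z < y ∧ ∃ j k, z = P.s j + P.s k - u}.Finite ∧
    {z | x < z ∧ z < y ∧ ∃ j k, z = P.s j + P.s k - u}.ncard ≤ n ^ 2) ∧
  ({z | x < z ∧ z < y ∧ ∃ j, z = P.s j}.Finite ∧ {z | x < z ∧ z < y ∧ ∃ j, z = P.s j}.ncard ≤ n)

def TaskSlide : Prop := ∀ (n : ℕ) (P : Poly n) (a b : ℝ) (F : Finset (Gluing P)),
  (∀ G ∈ F, G.a = a ∧ G.b = b) → Distinct F → F.card ≤ 7 * n ^ 2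

/-- At most four of the `α k`, `0 ≤ k < n`, are `≤ π / 2`; `ang a + ang b ≤ π`. -/
def TaskPairsConvex : Prop := ∀ (n : ℕ) (P : Poly n), (∀ k, P.α k ≤ Real.pi) →
  ∃ S : Finset (ℝ × ℝ), S.card ≤ 16 * n ∧
    ∀ G : Gluing P, Normal G → ¬ P.isV G.c → (G.a, G.b) ∈ S

/-- Sum of `π - ang` over the arc from `a` to `b` in pairs `x, a + b - x`. -/
def TaskTurn : Prop := ∀ (n : ℕ) (P : Poly n) (a b : ℝ), P.isV a → P.isV b → a < b →
  b < a + P.L → P.Fold a b → P.ang a + P.ang b ≤ 2 * Real.pi →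
  (∀ r, b < P.s r → P.s r < a + P.L → P.α r ≤ Real.pi) →
  ∀ T : Finset ℝ, (∀ x ∈ T, a ≤ x ∧ x < (a + b) / 2 ∧ P.ang x + P.ang (a + b - x) ≤ Real.pi) →
    T.card ≤ 2

/-- Fix a reflex vertex `r0`; then `a + b = s r + s q` with `r ≡ r0`; for each value of `a + b` at
most two pairs by `TaskTurn` (take the largest arc). -/
def TaskPairsReflex : Prop := ∀ (n : ℕ) (P : Poly n), (∃ r, Real.pi < P.α r) →
  ∃ S : Finset (ℝ × ℝ), S.card ≤ 16 * n ∧
    ∀ G : Gluing P, Normal G → ¬ P.isV G.c → ¬ Refl G → (G.a, G.b) ∈ S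

def TaskNoReflexArc : Prop := ∀ (n : ℕ) (P : Poly n) (F : Finset (Gluing P)),
  (∀ G ∈ F, Normal G ∧ ¬ P.isV G.c ∧ ¬ Refl G) → Distinct F → F.card ≤ 112 * n ^ 3

def TaskUpper : Prop := ∀ (n : ℕ) (P : Poly n) (F : Finset (Gluing P)), Distinct F →
  F.card ≤ 124 * n ^ 3

/-! lower bound -/

/-- Convex closed polygon with edge directions `D k` and edge lengths `ℓ k`. -/
structure Conv (n : ℕ) (V : ℤ → ℂ) (D ℓ : ℤ → ℝ) : Prop where
  three : 3 ≤ n
  V_per : ∀ k, V (k + n) = V k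
  D_per : ∀ k, D (k + n) = D k + 2 * Real.pi
  ℓ_per : ∀ k, ℓ (k + n) = ℓ k
  ℓ_pos : ∀ k, 0 < ℓ k
  D_lt : ∀ k, D k < D (k + 1) ∧ D (k + 1) < D k + Real.pi
  step : ∀ k, V (k + 1) - V k = ℓ k * Complex.exp (D k * Complex.I)

/-- All other vertices are strictly to the left of each edge: `Im (e^{-i D i} (V k - V i))` first
increases, then decreases, `i + 1 < k < i + n`. -/
def TaskLeft : Prop := ∀ (n : ℕ) (V : ℤ → ℂ) (D ℓ : ℤ → ℝ), Conv n V D ℓ → ∀ i k : ℤ, i + 1 < k →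
  k < i + n → 0 < (Complex.exp (-(D i) * Complex.I) * (V k - V i)).im

def TaskSimple : Prop := ∀ (n : ℕ) (V : ℤ → ℂ) (D ℓ : ℤ → ℝ), Conv n V D ℓ →
  ∀ i j : ℤ, ∀ x y : ℝ, 0 ≤ x → x < 1 → 0 ≤ y → y < 1 →
    V i + x * (V (i + 1) - V i) = V j + y * (V (j + 1) - V j) → ((n : ℤ) ∣ j - i) ∧ x = y

def TaskPoly : Prop := ∀ (n : ℕ) (V : ℤ → ℂ) (D ℓ : ℤ → ℝ), Conv n V D ℓ →
  ∃ P : Poly n, (∀ k, P.α k = Real.pi - (D k - D (k - 1))) ∧
    (∀ k, P.s (k + 1) - P.s k = ℓ k)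

/-- From finite data to periodic data. -/
def TaskPeriodic : Prop := ∀ (n : ℕ) (D ℓ : ℕ → ℝ), 3 ≤ n → (∀ k < n, 0 < ℓ k) →
  (∀ k, k + 1 < n → D k < D (k + 1) ∧ D (k + 1) < D k + Real.pi) →
  D (n - 1) < D 0 + 2 * Real.pi → D 0 + 2 * Real.pi < D (n - 1) + Real.pi →
  ∑ k ∈ Finset.range n, (ℓ k : ℂ) * Complex.exp (D k * Complex.I) = 0 →
  ∃ (V : ℤ → ℂ) (D' ℓ' : ℤ → ℝ), Conv n V D' ℓ' ∧ (∀ k < n, D' (k : ℤ) = D k) ∧
    ∀ k < n, ℓ' (k : ℤ) = ℓ k

/-- `ℓ k = 2 ^ (-(k+1))`, `D k = π (k+1) / (N+1)` for `k < N`; with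
`W = x + i h` the sum of these `N` edges, the last two edges are `-(M + x) - i h / 2` and
`M - i h / 2`, `M` large: directions `π + arctan (h / (2 (M + x)))`, `2 π - arctan (h / (2 M))`. -/
def TaskClose : Prop := ∀ N : ℕ, 3 ≤ N → ∃ D ℓ : ℕ → ℝ,
  (∀ k < N, ℓ k = (1 / 2) ^ (k + 1) ∧ D k = Real.pi * (k + 1) / (N + 1)) ∧
  2 ≤ ℓ N ∧ 0 < ℓ (N + 1) ∧ Real.pi < D N ∧ D N < Real.pi + Real.pi / 4 ∧
  2 * Real.pi - Real.pi / 4 < D (N + 1) ∧ D (N + 1) < 2 * Real.pi ∧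
  Real.pi - Real.pi / (N + 1) ≤ D (N + 1) - D N ∧
  ∑ k ∈ Finset.range (N + 2), (ℓ k : ℂ) * Complex.exp (D k * Complex.I) = 0

/-- The polygon of the lower bound; vertex `N + 1` is the sharp one. -/
structure Sharp (N : ℕ) (P : Poly (N + 2)) : Prop where
  hN : 3 ≤ N
  pos : ∀ k : ℕ, k ≤ N → P.s k = 1 - (1 / 2) ^ k
  long : P.s N + 2 ≤ P.s (N + 1)
  convex : ∀ k, P.α k < Real.pi
  sharp : ∀ k : ℕ, 1 ≤ k → k < N → P.α k + P.α (N + 1) ≤ Real.pi

def TaskSharp : Prop := ∀ N : ℕ, 3 ≤ N → ∃ P : Poly (N + 2), Sharp N P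

def TaskLowGlue : Prop := ∀ (N : ℕ) (P : Poly (N + 2)), Sharp N P → ∀ i u w : ℕ, 1 ≤ i → i < u →
  u < w → w ≤ N → ∃ G : Gluing P, G.a = P.s (-1) ∧ G.b = P.s i ∧ G.c = P.s u + P.s w - P.s i

/-- Sidon property of the powers of `1/2`. -/
def TaskSidon : Prop := ∀ u w u' w' : ℕ, u < w → u' < w' →
  ((1 : ℝ) / 2) ^ u + (1 / 2) ^ w = (1 / 2) ^ u' + (1 / 2) ^ w' → u = u' ∧ w = w'

/-- The junction label gives `i`, the node with label `{u, w}` gives `s u + s w = s u' + s w'`. -/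
def TaskLowDist : Prop := ∀ (N : ℕ) (P : Poly (N + 2)), Sharp N P → ∀ i u w i' u' w' : ℕ,
  1 ≤ i → i < u → u < w → w ≤ N → 1 ≤ i' → i' < u' → u' < w' → w' ≤ N → ∀ G G' : Gluing P,
  G.a = P.s (-1) → G.b = P.s i → G.c = P.s u + P.s w - P.s i →
  G'.a = P.s (-1) → G'.b = P.s i' → G'.c = P.s u' + P.s w' - P.s i' →
  SameType G G' → i = i' ∧ P.s u + P.s w = P.s u' + P.s w'

def TaskLower : Prop := ∀ N : ℕ, 3 ≤ N → ∃ P : Poly (N + 2), (∀ k, P.α k < Real.pi) ∧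
  ∃ F : Finset (Gluing P), Distinct F ∧ N.choose 3 ≤ F.card

end

end Pool.Agent.Y129
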