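import Pool.Agent.Y129.Stmts

namespace Pool.Agent.Y129.TaskLower

open Classical

theorem sort3 (S : Finset ℕ) (h : S.card = 3) :
    ∃ i u w, i < u ∧ u < w ∧ S = {i, u, w} := by
  obtain ⟨x, y, z, hxy, hxz, hyz, rfl⟩ := Finset.card_eq_three.1 h
  rcases lt_or_gt_of_ne hxy with h1 | h1 <;> rcases lt_or_gt_of_ne hxz with h2 | h2 <;>
    rcases lt_or_gt_of_ne hyz with h3 | h3
  · exact ⟨x, y, z, h1, h3, rfl⟩
  · exact ⟨x, z, y, h2, h3, by ext k; simp; tauto⟩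
  · omega
  · exact ⟨z, x, y, h2, h1, by ext k; simp; tauto⟩
  · exact ⟨y, x, z, h1, h2, by ext k; simp; tauto⟩
  · omega
  · exact ⟨y, z, x, h3, h2, by ext k; simp; tauto⟩
  · exact ⟨z, y, x, h3, h1, by ext k; simp; tauto⟩

theorem main (hE : TaskEquiv) (hS : TaskSharp) (hG : TaskLowGlue) (hSi : TaskSidon)
    (hD : TaskLowDist) : Pool.Agent.Y129.TaskLower := by
  intro N hN
  obtain ⟨P, hP⟩ := hS N hN
  refine ⟨P, hP.convex, ?_⟩
  set T := (Finset.Icc 1 N).powersetCard 3 with hT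
  have key : ∀ S ∈ T, ∃ G : Gluing P, ∃ i u w : ℕ, 1 ≤ i ∧ i < u ∧ u < w ∧ w ≤ N ∧ S = {i, u, w} ∧
      G.a = P.s (-1) ∧ G.b = P.s i ∧ G.c = P.s u + P.s w - P.s i := by
    intro S hSm
    rw [hT, Finset.mem_powersetCard] at hSm
    obtain ⟨i, u, w, h1, h2, h3⟩ := sort3 S hSm.2
    have hi : 1 ≤ i := (Finset.mem_Icc.1 (hSm.1 (by rw [h3]; simp))).1
    have hw : w ≤ N := (Finset.mem_Icc.1 (hSm.1 (by rw [h3]; simp))).2
    obtain ⟨G, e1, e2, e3⟩ := hG N P hP i u w hi h1 h2 hw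
    exact ⟨G, i, u, w, hi, h1, h2, hw, h3, e1, e2, e3⟩
  choose g hg using key
  have inj : ∀ S (h : S ∈ T) S' (h' : S' ∈ T), SameType (g S h) (g S' h') → S = S' := by
    intro S h S' h' hs
    obtain ⟨i, u, w, a1, a2, a3, a4, a5, a6, a7, a8⟩ := hg S h
    obtain ⟨i', u', w', b1, b2, b3, b4, b5, b6, b7, b8⟩ := hg S' h'
    obtain ⟨c1, c2⟩ := hD N P hP i u w i' u' w' a1 a2 a3 a4 b1 b2 b3 b4 _ _ a6 a7 a8 b6 b7 b8 hs
    rw [hP.pos u (by omega), hP.pos w a4, hP.pos u' (by omega), hP.pos w' b4] at c2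
    obtain ⟨d1, d2⟩ := hSi u w u' w' a3 b3 (by linarith)
    rw [a5, b5, c1, d1, d2]
  refine ⟨T.attach.image (fun S => g S.1 S.2), ?_, ?_⟩
  · intro G hG' G' hG'' hs
    obtain ⟨S, _, rfl⟩ := Finset.mem_image.1 hG'
    obtain ⟨S', _, rfl⟩ := Finset.mem_image.1 hG''
    have := inj S.1 S.2 S'.1 S'.2 hs
    have h2 : S = S' := Subtype.ext this
    rw [h2]
  · rw [Finset.card_image_of_injective, Finset.card_attach, hT, Finset.card_powersetCard]
    · simp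
    · intro S S' hs
      apply Subtype.ext
      apply inj S.1 S.2 S'.1 S'.2
      have h3 : g S.1 S.2 = g S'.1 S'.2 := hs
      rw [h3]
      exact (hE _ P).refl _

end Pool.Agent.Y129.TaskLower
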