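import Pool.Agent.Y129.Stmts

set_option autoImplicit false

namespace Pool.Agent.Y129.TaskSBasic

variable {n : ℕ}

theorem edge_pos (P : Poly n) (k : ℤ) : 0 < ‖P.v (k + 1) - P.v k‖ := by
  rw [norm_pos_iff]
  intro h
  have h1 := P.simple k k 0 (1 / 2) le_rfl (by norm_num) (by norm_num) (by norm_num)
    (by rw [h]; simp)
  have h2 := h1.2
  norm_num at h2

theorem s_lt (P : Poly n) (k : ℤ) : P.s k < P.s (k + 1) := by
  have h1 := P.s_succ k
  have h2 := edge_pos P k
  linarith

theorem s_mono (P : Poly n) : StrictMono P.s := strictMono_int_of_lt_succ (s_lt P)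

theorem s_per (P : Poly n) (k : ℤ) : P.s (k + n) = P.s k + P.L := by
  have key : ∀ k : ℤ, P.s (k + 1 + n) - P.s (k + 1) = P.s (k + n) - P.s k := by
    intro k
    have h1 := P.s_succ k
    have h2 := P.s_succ (k + n)
    have h3 : P.v (k + n + 1) = P.v (k + 1) := by
      have := P.v_per (k + 1)
      rw [← this]
      congr 1
      ring
    rw [h3, P.v_per] at h2
    have h4 : k + (n : ℤ) + 1 = k + 1 + n := by ring
    rw [h4] at h2
    linarith
  have h : ∀ k : ℤ, P.s (k + n) - P.s k = P.s (0 + n) - P.s 0 := by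
    intro k
    induction k using Int.induction_on with
    | zero => rfl
    | succ m ih => rw [key, ih]
    | pred m ih =>
      have := key (-(m : ℤ) - 1)
      rw [sub_add_cancel] at this
      rw [← this, ih]
  have h1 := h k
  rw [P.s_zero, zero_add, sub_zero] at h1
  have : P.L = P.s n := rfl
  rw [this]
  linarith

theorem L_pos (P : Poly n) : 0 < P.L := by
  have h : P.s 0 < P.s n := s_mono P (by have := P.three; omega)
  rw [P.s_zero] at h
  exact h

theorem s_mul (P : Poly n) (m : ℤ) : P.s (m * n) = m * P.L := by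
  induction m using Int.induction_on with
  | zero => simp [P.s_zero]
  | succ m ih =>
    have : ((m : ℤ) + 1) * n = m * n + n := by ring
    rw [this, s_per, ih]
    push_cast
    ring
  | pred m ih =>
    have h := s_per P ((-(m : ℤ) - 1) * n)
    have h2 : (-(m : ℤ) - 1) * n + n = -(m : ℤ) * n := by ring
    rw [h2, ih] at h
    push_cast at h ⊢
    linarith

theorem locate (P : Poly n) (x : ℝ) : ∃ k : ℤ, P.s k ≤ x ∧ x < P.s (k + 1) := by
  have hL := L_pos P
  have hlow : P.s (⌊x / P.L⌋ * n) ≤ x := by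
    rw [s_mul]
    have := Int.floor_le (x / P.L)
    rwa [le_div_iff₀ hL] at this
  have hhigh : x < P.s ((⌊x / P.L⌋ + 1) * n) := by
    rw [s_mul]
    have := Int.lt_floor_add_one (x / P.L)
    rw [div_lt_iff₀ hL] at this
    push_cast
    exact this
  obtain ⟨k, hk, hmax⟩ := Int.exists_greatest_of_bdd (P := fun k => P.s k ≤ x)
    ⟨(⌊x / P.L⌋ + 1) * n, fun z hz => by
      by_contra hlt
      push Not at hlt
      have := s_mono P hlt
      linarith⟩ ⟨_, hlow⟩
  refine ⟨k, hk, ?_⟩
  by_contra hle
  push Not at hle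
  have := hmax (k + 1) hle
  omega

theorem main : Pool.Agent.Y129.TaskSBasic := by
  intro n P
  exact ⟨s_mono P, s_per P, L_pos P, locate P⟩

end Pool.Agent.Y129.TaskSBasic
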