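import Pool.Agent.Y129.Stmts

set_option autoImplicit false

namespace Pool.Agent.Y129.TaskSlide

open Classical Set Pool.Agent.Y129

variable {n : ℕ}

theorem sameSign_lt {x y z : ℝ} (h : SameSign x y z) : z < x ↔ z < y := by
  obtain ⟨h1, h2⟩ := h
  constructor
  · intro hx
    rcases lt_trichotomy z y with h | h | h
    · exact h
    · exact absurd (h2.2 h.symm) (ne_of_gt hx)
    · exact absurd (h1.2 h) (not_lt.2 hx.le)
  · intro hy
    rcases lt_trichotomy z x with h | h | h
    · exact h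
    · exact absurd (h2.1 h.symm) (ne_of_gt hy)
    · exact absurd (h1.1 h) (not_lt.2 hy.le)

theorem vset_eq (P : Poly n) {x y : ℝ} (h : ∀ j, SameSign x y (P.s j)) : P.vset x = P.vset y := by
  ext k
  simp only [Poly.vset, mem_ofPred_eq]
  constructor
  · rintro ⟨j, h1, h2⟩
    exact ⟨j, h1, ((h j).2.1 h2.symm).symm⟩
  · rintro ⟨j, h1, h2⟩
    exact ⟨j, h1, ((h j).2.2 h2.symm).symm⟩

theorem eset_eq (P : Poly n) {x y : ℝ} (h : ∀ j, SameSign x y (P.s j)) : P.eset x = P.eset y := by
  ext k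
  simp only [Poly.eset, mem_ofPred_eq]
  constructor
  · rintro ⟨j, h1, h2, h3⟩
    exact ⟨j, h1, (sameSign_lt (h j)).1 h2, (h (j + 1)).1.1 h3⟩
  · rintro ⟨j, h1, h2, h3⟩
    exact ⟨j, h1, (sameSign_lt (h j)).2 h2, (h (j + 1)).1.2 h3⟩

theorem label_eq (P : Poly n) (a b : ℝ) {x y : ℝ} (h : ∀ j, SameSign x y (P.s j)) :
    P.label {a, b, x} = P.label {a, b, y} := by
  simp only [Poly.label, Set.biUnion_insert, Set.biUnion_singleton, vset_eq P h, eset_eq P h]

theorem armIso_refl (P : Poly n) (J J' : Set ℝ) (a b : ℝ) (h : P.label J = P.label J') :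
    P.ArmIso J a b J' a b := by
  refine ⟨OrderIso.refl _, fun t => ?_⟩
  show P.armLab J a b (t : ℝ) = P.armLab J' a b (t : ℝ)
  unfold Poly.armLab
  by_cases h0 : (t : ℝ) = 0
  · rw [if_pos h0, if_pos h0]; exact h
  · rw [if_neg h0, if_neg h0]

theorem main (_hB : TaskSBasic) (_hA : TaskAng) (hR : TaskArmRight) (hL : TaskArmLeft)
    (hK : TaskRank) (hC : TaskCrit) : Pool.Agent.Y129.TaskSlide := by
  intro n P a b F hF hD
  by_cases hF0 : F = ∅
  · subst hF0; simp
  obtain ⟨G0, hG0⟩ := Finset.nonempty_iff_ne_empty.2 hF0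
  have hab : a < b := by
    have := G0.hab
    rw [(hF G0 hG0).1, (hF G0 hG0).2] at this
    exact this
  have hlen : a + P.L ≤ b + P.L := by linarith
  obtain ⟨⟨f1, c1⟩, ⟨f3, c3⟩⟩ := hC n P b (a + P.L) b hlen
  obtain ⟨⟨f2, c2⟩, -⟩ := hC n P b (a + P.L) (a + P.L) hlen
  set Z1 := f1.toFinset with hZ1
  set Z2 := f2.toFinset with hZ2
  set Z3 := f3.toFinset with hZ3
  have e1 : Z1.card ≤ n ^ 2 := by rw [hZ1, ← Set.ncard_eq_toFinset_card _ f1]; exact c1
  have e2 : Z2.card ≤ n ^ 2 := by rw [hZ2, ← Set.ncard_eq_toFinset_card _ f2]; exact c2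
  have e3 : Z3.card ≤ n := by rw [hZ3, ← Set.ncard_eq_toFinset_card _ f3]; exact c3
  have hinj : Set.InjOn (fun G : Gluing P => G.c) F := by
    intro G hG G' hG' h
    have h1 := hF G hG
    have h2 := hF G' hG'
    exact Gluing.ext (h1.1.trans h2.1.symm) (h1.2.trans h2.2.symm) h
  have hcard : (F.image (fun G : Gluing P => G.c)).card = F.card := Finset.card_image_of_injOn hinj
  -- same sign outside the open interval
  have hout : ∀ G ∈ F, ∀ G' ∈ F, ∀ z : ℝ, (b < z → z < a + P.L → SameSign G.c G'.c z) →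
      SameSign G.c G'.c z := by
    intro G hG G' hG' z h
    have h1 := G.hbc
    have h2 := G.hca
    have h1' := G'.hbc
    have h2' := G'.hca
    rw [(hF G hG).2] at h1
    rw [(hF G hG).1] at h2
    rw [(hF G' hG').2] at h1'
    rw [(hF G' hG').1] at h2'
    by_cases hz : b < z
    · by_cases hz2 : z < a + P.L
      · exact h hz hz2
      · push Not at hz2
        refine ⟨⟨fun _ => by linarith, fun _ => by linarith⟩, ⟨fun h => ?_, fun h => ?_⟩⟩
        · exfalso; linarith
        · exfalso; linarith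
    · push Not at hz
      refine ⟨⟨fun h => ?_, fun h => ?_⟩, ⟨fun h => ?_, fun h => ?_⟩⟩ <;> exfalso <;> linarith
  have hrank := hK (Z1 ∪ Z2 ∪ Z3) (F.image (fun G : Gluing P => G.c)) (by
    intro x hx y hy h
    rw [Finset.mem_image] at hx hy
    obtain ⟨G, hG, rfl⟩ := hx
    obtain ⟨G', hG', rfl⟩ := hy
    have s3 : ∀ j, SameSign G.c G'.c (P.s j) := by
      intro j
      apply hout G hG G' hG'
      intro hz1 hz2
      apply h
      apply Finset.mem_union_right
      rw [hZ3, Set.Finite.mem_toFinset]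
      exact ⟨hz1, hz2, j, rfl⟩
    have s1 : ∀ j k, SameSign G.c G'.c (P.s j + P.s k - b) := by
      intro j k
      apply hout G hG G' hG'
      intro hz1 hz2
      apply h
      apply Finset.mem_union_left
      apply Finset.mem_union_left
      rw [hZ1, Set.Finite.mem_toFinset]
      exact ⟨hz1, hz2, j, k, rfl⟩
    have s2 : ∀ j k, SameSign G.c G'.c (P.s j + P.s k - (a + P.L)) := by
      intro j k
      apply hout G hG G' hG'
      intro hz1 hz2
      apply h
      apply Finset.mem_union_left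
      apply Finset.mem_union_right
      rw [hZ2, Set.Finite.mem_toFinset]
      exact ⟨hz1, hz2, j, k, rfl⟩
    have hlab : P.label G.J = P.label G'.J := by
      unfold Gluing.J
      rw [(hF G hG).1, (hF G hG).2, (hF G' hG').1, (hF G' hG').2]
      exact label_eq P a b s3
    have hst : SameType G G' := by
      refine ⟨1, fun i => ?_⟩
      have g1 := G.hbc
      have g2 := G.hca
      have g1' := G'.hbc
      have g2' := G'.hca
      rw [(hF G hG).2] at g1
      rw [(hF G hG).1] at g2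
      rw [(hF G' hG').2] at g1'
      rw [(hF G' hG').1] at g2'
      fin_cases i
      · simp only [Gluing.lo, Gluing.hi, Equiv.Perm.coe_one, id]
        show P.ArmIso G.J G.a G.b G'.J G'.a G'.b
        rw [(hF G hG).1, (hF G hG).2, (hF G' hG').1, (hF G' hG').2]
        exact armIso_refl P _ _ a b hlab
      · show P.ArmIso G.J G.b G.c G'.J G'.b G'.c
        rw [(hF G hG).2, (hF G' hG').2]
        exact hR n P _ _ b G.c G'.c g1 g1' hlab s3 s1
      · show P.ArmIso G.J G.c (G.a + P.L) G'.J G'.c (G'.a + P.L)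
        rw [(hF G hG).1, (hF G' hG').1]
        exact hL n P _ _ G.c G'.c (a + P.L) g2 g2' hlab s3 s2
    rw [hD G hG G' hG' hst])
  rw [hcard] at hrank
  have h3 : (Z1 ∪ Z2 ∪ Z3).card ≤ n ^ 2 + n ^ 2 + n :=
    (Finset.card_union_le _ _).trans (add_le_add ((Finset.card_union_le _ _).trans
      (add_le_add e1 e2)) e3)
  have h4 := P.three
  nlinarith [hrank, h3, h4]

end Pool.Agent.Y129.TaskSlide
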